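import Pool.Agent.N222.Dil.VLemma

/-!
# Basic facts on sides and triangulated dilation surfaces
-/

open scoped MatrixGroups

namespace Pool.Agent.N222.Dil

/-! ### determinants -/

lemma dt_add_left (x y z : ℝ × ℝ) : dt (x + y) z = dt x z + dt y z := by
  simp [dt]; ring

lemma dt_add_right (x y z : ℝ × ℝ) : dt x (y + z) = dt x y + dt x z := by
  simp [dt]; ring

lemma dt_smul_left (r : ℝ) (x y : ℝ × ℝ) : dt (r • x) y = r * dt x y := by
  simp [dt]; ring

lemma dt_smul_right (r : ℝ) (x y : ℝ × ℝ) : dt x (r • y) = r * dt x y := by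
  simp [dt]; ring

lemma dt_neg_left (x y : ℝ × ℝ) : dt (-x) y = -dt x y := by
  simp [dt]; ring

lemma dt_neg_right (x y : ℝ × ℝ) : dt x (-y) = -dt x y := by
  simp [dt]; ring

lemma dt_zero_right (x : ℝ × ℝ) : dt x 0 = 0 := by
  simp [dt]

lemma dt_self (x : ℝ × ℝ) : dt x x = 0 := by
  simp [dt]; ring

lemma dt_comm (x y : ℝ × ℝ) : dt x y = -dt y x := by
  simp [dt]; ring

lemma dt_continuous : Continuous (fun p : (ℝ × ℝ) × (ℝ × ℝ) => dt p.1 p.2) := by
  unfold dt
  fun_prop

/-- two vectors on the same side of a line parallel to `u` -/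
lemma same_side {u v w w' : ℝ × ℝ} (hu : u ≠ 0) (h : dt u v = 0) (hw : 0 < dt v w)
    (hw' : 0 < dt v w') : 0 < dt u w * dt u w' := by
  have pl : dt u w * dt v w' - dt u w' * dt v w = dt u v * dt w w' := by
    simp only [dt]; ring
  rw [h, zero_mul, sub_eq_zero] at pl
  have hne : dt u w ≠ 0 := by
    intro h0
    have e1 : dt v w • u = 0 := by
      have : dt v w • u = dt u w • v - dt u v • w := by
        ext <;> simp [dt] <;> ring
      rw [this, h0, h]; simp
    rcases smul_eq_zero.1 e1 with h1 | h1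
    · exact hw.ne' h1
    · exact hu h1
  rcases lt_or_gt_of_ne hne with h0 | h0
  · have : dt u w' < 0 := by
      by_contra hcon
      push Not at hcon
      nlinarith [mul_pos (neg_pos.2 h0) hw', mul_nonneg hcon hw.le]
    exact mul_pos_of_neg_of_neg h0 this
  · have : 0 < dt u w' := by
      by_contra hcon
      push Not at hcon
      nlinarith [mul_pos h0 hw', mul_nonneg (neg_nonneg.2 hcon) hw.le]
    exact mul_pos h0 this

/-! ### sides -/

@[simp] lemma nx_fst (s : Side) : (nx s).1 = s.1 := rfl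

@[simp] lemma nx3 (s : Side) : nx (nx (nx s)) = s := by
  obtain ⟨f, i⟩ := s
  simp only [nx, Prod.mk.injEq, true_and]
  fin_cases i <;> rfl

lemma nx_inj {s t : Side} (h : nx s = nx t) : s = t := by
  rw [← nx3 s, ← nx3 t, h]

lemma nx_ne (s : Side) : nx s ≠ s := by
  obtain ⟨f, i⟩ := s
  simp only [nx, ne_eq, Prod.mk.injEq, true_and]
  fin_cases i <;> simp

lemma nx2_ne (s : Side) : nx (nx s) ≠ s := by
  intro h
  have := congrArg nx h
  rw [nx3] at this
  exact nx_ne s this.symm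

lemma same_tri {s x : Side} (h : x.1 = s.1) : x = s ∨ x = nx s ∨ x = nx (nx s) := by
  obtain ⟨f, i⟩ := s
  obtain ⟨f', j⟩ := x
  simp only at h
  subst h
  simp only [nx, Prod.mk.injEq, true_and]
  fin_cases i <;> fin_cases j <;> simp

lemma side_cases (s t x : Side) : (x = s ∨ x = nx s ∨ x = nx (nx s)) ∨
    (x = t ∨ x = nx t ∨ x = nx (nx t)) ∨ (x.1 ≠ s.1 ∧ x.1 ≠ t.1) := by
  by_cases h : x.1 = s.1
  · exact Or.inl (same_tri h)
  by_cases h' : x.1 = t.1
  · exact Or.inr (Or.inl (same_tri h'))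
  exact Or.inr (Or.inr ⟨h, h'⟩)

section turn

variable {s t : Side} (h : s.1 ≠ t.1)
include h

lemma ne_of_fst {x y : Side} (hx : x.1 = s.1) (hy : y.1 = t.1) : x ≠ y := by
  rintro rfl
  exact h (hx.symm.trans hy)

omit h in
lemma turn_1 : turn s t (nx s) = nx (nx t) := by simp [turn]

lemma turn_2 : turn s t (nx (nx t)) = nx t := by
  have h1 : nx (nx t) ≠ nx s := (ne_of_fst h (x := nx s) (y := nx (nx t)) rfl rfl).symm
  simp [turn, h1]

lemma turn_3 : turn s t (nx t) = nx (nx s) := by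
  have h1 : nx t ≠ nx s := (ne_of_fst h (x := nx s) (y := nx t) rfl rfl).symm
  have h2 : nx t ≠ nx (nx t) := fun h => nx_ne _ h.symm
  simp [turn, h1, h2]

lemma turn_4 : turn s t (nx (nx s)) = nx s := by
  have h1 : nx (nx s) ≠ nx s := nx_ne _
  have h2 : nx (nx s) ≠ nx (nx t) := ne_of_fst h rfl rfl
  have h3 : nx (nx s) ≠ nx t := ne_of_fst h rfl rfl
  simp [turn, h1, h2, h3]

lemma turn_5 : turn s t s = s := by
  have h1 : s ≠ nx s := (nx_ne _).symm
  have h2 : s ≠ nx (nx t) := ne_of_fst h rfl rfl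
  have h3 : s ≠ nx t := ne_of_fst h rfl rfl
  have h4 : s ≠ nx (nx s) := (nx2_ne _).symm
  simp [turn, h1, h2, h3, h4]

lemma turn_6 : turn s t t = t := by
  have h1 : t ≠ nx s := (ne_of_fst h (x := nx s) (y := t) rfl rfl).symm
  have h2 : t ≠ nx (nx t) := (nx2_ne _).symm
  have h3 : t ≠ nx t := (nx_ne _).symm
  have h4 : t ≠ nx (nx s) := (ne_of_fst h (x := nx (nx s)) (y := t) rfl rfl).symm
  simp [turn, h1, h2, h3, h4]

omit h in
lemma turn_7 {x : Side} (hx : x.1 ≠ s.1) (hx' : x.1 ≠ t.1) : turn s t x = x := by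
  have h1 : x ≠ nx s := by rintro rfl; exact hx rfl
  have h2 : x ≠ nx (nx t) := by rintro rfl; exact hx' rfl
  have h3 : x ≠ nx t := by rintro rfl; exact hx' rfl
  have h4 : x ≠ nx (nx s) := by rintro rfl; exact hx rfl
  simp [turn, h1, h2, h3, h4]

lemma turn_symm (x : Side) : turn t s x = turn s t x := by
  rcases side_cases s t x with (rfl | rfl | rfl) | (rfl | rfl | rfl) | ⟨h1, h2⟩
  · rw [turn_5 h, turn_6 h.symm]
  · rw [turn_1, turn_3 h.symm]
  · rw [turn_4 h, turn_2 h.symm]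
  · rw [turn_6 h, turn_5 h.symm]
  · rw [turn_3 h, turn_1]
  · rw [turn_2 h, turn_4 h.symm]
  · rw [turn_7 h1 h2, turn_7 h2 h1]

end turn

/-! ### surfaces -/

namespace Surf

variable (D : Surf)

/-- the dilation ratio across a side -/
noncomputable def r (s : Side) : ℝ :=
  -dt (D.vec (D.glue s)) (D.vec (nx s)) / dt (D.vec s) (D.vec (nx s))

lemma r_unique {s : Side} {ρ : ℝ} (h : D.vec (D.glue s) = -(ρ • D.vec s)) : D.r s = ρ := by
  have := D.pos s
  unfold r
  rw [h, dt_neg_left, dt_smul_left]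
  field_simp

lemma r_spec (s : Side) : 0 < D.r s ∧ D.vec (D.glue s) = -(D.r s • D.vec s) := by
  obtain ⟨ρ, h1, h2⟩ := D.parallel s
  rw [D.r_unique h2]
  exact ⟨h1, h2⟩

lemma r_pos (s : Side) : 0 < D.r s := (D.r_spec s).1

lemma vec_glue (s : Side) : D.vec (D.glue s) = -(D.r s • D.vec s) := (D.r_spec s).2

lemma vec_ne (s : Side) : D.vec s ≠ 0 := by
  intro h
  have := D.pos s
  rw [h] at this
  simp [dt] at this

lemma r_glue (s : Side) : D.r (D.glue s) = (D.r s)⁻¹ := by
  apply r_unique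
  rw [D.glue_glue, D.vec_glue]
  have := (D.r_pos s).ne'
  simp [smul_smul, this]

lemma glue_fst (s : Side) : s.1 ≠ (D.glue s).1 := by
  intro h
  rcases same_tri h.symm with h | h | h
  · exact D.glue_ne s h
  · have := D.pos s
    rw [← h, D.vec_glue, dt_neg_right, dt_smul_right, dt_self] at this
    simp at this
  · have := D.pos (nx (nx s))
    rw [nx3, ← h, D.vec_glue, dt_neg_left, dt_smul_left, dt_self] at this
    simp at this

lemma nx2_vec (s : Side) : D.vec (nx (nx s)) = -(D.vec s + D.vec (nx s)) := by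
  have := D.closed s
  rw [eq_neg_iff_add_eq_zero, add_comm, this]

lemma pos' (s : Side) : dt (D.vec s) (D.vec (nx s)) = dt (D.vec (nx s)) (D.vec (nx (nx s))) := by
  rw [D.nx2_vec, dt_neg_right, dt_add_right, dt_self, dt_comm (D.vec (nx s))]
  ring

end Surf

end Pool.Agent.N222.Dil
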