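import Pool.Agent.N222.Dil.Transport

/-!
# Comparison of two V-shaped vertex scales
-/

open scoped MatrixGroups

namespace Pool.Agent.N222.Dil

/-- on the triangle of `s` the first V-shaped function is below the second one -/
def PLEat (D : Surf) (Z : Side → ℝ) (u₁ : ℝ × ℝ) (a₁ b₁ : ℝ) (u₂ : ℝ × ℝ) (a₂ b₂ : ℝ)
    (s : Side) : Prop :=
  ∀ c₁ d₁ c₂ d₂ : ℝ, TriV D Z u₁ a₁ b₁ s c₁ d₁ → TriV D Z u₂ a₂ b₂ s c₂ d₂ →
    ∀ p q : ℝ, 0 ≤ p → 0 ≤ q → p + q ≤ 1 →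
      V a₁ b₁ c₁ d₁ (p * dt u₁ (D.vec s) + q * (-(dt u₁ (D.vec (nx (nx s)))))) ≤
        V a₂ b₂ c₂ d₂ (p * dt u₂ (D.vec s) + q * (-(dt u₂ (D.vec (nx (nx s))))))

variable {D D' : Surf} {Z Z' : Side → ℝ} {u₁ : ℝ × ℝ} {a₁ b₁ : ℝ} {u₂ : ℝ × ℝ} {a₂ b₂ : ℝ}

lemma TriV.rot2 {u : ℝ × ℝ} {a b : ℝ} {s : Side} {c d : ℝ}
    (h : TriV D Z u a b (nx s) c d) :
    TriV D Z u a b s (c - a * dt u (D.vec s)) (d + b * dt u (D.vec s)) := by
  have h' := h.rot.rot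
  rw [nx3] at h'
  have e : dt u (D.vec (nx s)) + dt u (D.vec (nx (nx s))) = -(dt u (D.vec s)) := by
    rw [D.nx2_vec, dt_neg_right, dt_add_right]; ring
  have e1 : c + a * dt u (D.vec (nx s)) + a * dt u (D.vec (nx (nx s))) =
      c - a * dt u (D.vec s) := by
    linear_combination a * e
  have e2 : d - b * dt u (D.vec (nx s)) - b * dt u (D.vec (nx (nx s))) =
      d + b * dt u (D.vec s) := by
    linear_combination -b * e
  rwa [e1, e2] at h'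

lemma PLEat.rot {s : Side} (h : PLEat D Z u₁ a₁ b₁ u₂ a₂ b₂ s) :
    PLEat D Z u₁ a₁ b₁ u₂ a₂ b₂ (nx s) := by
  intro c₁ d₁ c₂ d₂ h1 h2 p q hp hq hpq
  have := h _ _ _ _ h1.rot2 h2.rot2 (1 - p - q) p (by linarith) hp (by linarith)
  have key : ∀ (u : ℝ × ℝ) (a b c d : ℝ),
      V a b (c - a * dt u (D.vec s)) (d + b * dt u (D.vec s))
        ((1 - p - q) * dt u (D.vec s) + p * (-(dt u (D.vec (nx (nx s)))))) =
      V a b c d (p * dt u (D.vec (nx s)) + q * (-(dt u (D.vec (nx (nx (nx s))))))) := by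
    intro u a b c d
    have e := V_shift a b c d (-(dt u (D.vec s)))
      ((1 - p - q) * dt u (D.vec s) + p * (-(dt u (D.vec (nx (nx s))))))
    have e1 : c + a * -(dt u (D.vec s)) = c - a * dt u (D.vec s) := by ring
    have e2 : d - b * -(dt u (D.vec s)) = d + b * dt u (D.vec s) := by ring
    rw [e1, e2] at e
    rw [← e, nx3, dt_nx2]
    congr 1
    ring
  rw [key, key] at this
  exact this

/-- A triangle cut off from a convex quadrilateral is covered by the two triangles of the other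
triangulation. -/
lemma cover {L J K : ℝ × ℝ} (h1 : 0 < dt L J) (h2 : 0 < dt J K) (h3 : 0 < dt L K)
    (h4 : dt L K ≤ dt L J + dt J K) {p q : ℝ} (hp : 0 ≤ p) (hq : 0 ≤ q) (hpq : p + q ≤ 1) :
    (∃ p' q' : ℝ, 0 ≤ p' ∧ 0 ≤ q' ∧ p' + q' ≤ 1 ∧ ∀ u, p * dt u L + q * dt u K =
      p' * dt u L + q' * dt u J) ∨
    (∃ p' q' : ℝ, 0 ≤ p' ∧ 0 ≤ q' ∧ p' + q' ≤ 1 ∧ ∀ u, p * dt u L + q * dt u K =
      p' * dt u J + q' * dt u K) := by
  -- `J = (dt J K / dt L K) L + (dt L J / dt L K) K`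
  have hJ : ∀ u, dt L K * dt u J = dt J K * dt u L + dt L J * dt u K := by
    intro u
    simp only [dt]; ring
  by_cases hc : q * dt J K ≤ p * dt L J
  · left
    refine ⟨p - q * dt J K / dt L J, q * dt L K / dt L J, ?_, by positivity, ?_, ?_⟩
    · rw [sub_nonneg, div_le_iff₀ h1]; exact hc
    · have : q * dt L K / dt L J - q * dt J K / dt L J ≤ q := by
        rw [← sub_div, div_le_iff₀ h1]
        nlinarith
      linarith
    · intro u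
      have := hJ u
      field_simp
      linear_combination (-q) * this
  · right
    push Not at hc
    refine ⟨p * dt L K / dt J K, q - p * dt L J / dt J K, by positivity, ?_, ?_, ?_⟩
    · rw [sub_nonneg, div_le_iff₀ h2]; exact hc.le
    · have : p * dt L K / dt J K - p * dt L J / dt J K ≤ p := by
        rw [← sub_div, div_le_iff₀ h2]
        nlinarith
      linarith
    · intro u
      have := hJ u
      field_simp
      linear_combination (-p) * this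

lemma V_unscale {k : ℝ} (hk : 0 < k) (a b c d s : ℝ) :
    V a b c d (k * s) = k * V a b (c / k) (d / k) s := by
  rw [V_scale' hk]
  congr 1 <;> field_simp

lemma TriV.unrelabel {e : Side ≃ Side} {m : Side → ℝ} (h : IsRelabel e m D D')
    (hr : ZRel e m Z Z') {u : ℝ × ℝ} {a b : ℝ} {s : Side} {c d : ℝ}
    (ht : TriV D' Z' u a b (e s) c d) : TriV D Z u a b s (c / m s) (d / m s) := by
  obtain ⟨h1, h2, h3, h4, h5⟩ := h
  obtain ⟨t1, t2, t3⟩ := ht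
  have hm := (h2 s).ne'
  refine ⟨?_, ?_, ?_⟩
  · rw [hr] at t1
    have := V_unscale (h2 s) a b c d 0
    rw [mul_zero, ← t1] at this
    exact mul_left_cancel₀ hm this
  · rw [← h1, hr, h3, h5, dt_smul_right, V_unscale (h2 s)] at t2
    exact mul_left_cancel₀ hm t2
  · rw [← h1, ← h1, hr, h3, h3, h5, h3, h3, dt_smul_right, ← mul_neg, V_unscale (h2 s)] at t3
    exact mul_left_cancel₀ hm t3

lemma PLEat.relabel {e : Side ≃ Side} {m : Side → ℝ} (h : IsRelabel e m D D')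
    (hr : ZRel e m Z Z') {s : Side} (hp : PLEat D Z u₁ a₁ b₁ u₂ a₂ b₂ s) :
    PLEat D' Z' u₁ a₁ b₁ u₂ a₂ b₂ (e s) := by
  intro c₁ d₁ c₂ d₂ h1 h2 p q hp' hq hpq
  have := hp _ _ _ _ (h1.unrelabel h hr) (h2.unrelabel h hr) p q hp' hq hpq
  obtain ⟨g1, g2, g3, g4, g5⟩ := h
  have := mul_le_mul_of_nonneg_left this (g2 s).le
  have key : ∀ (u : ℝ × ℝ) (a b c d : ℝ),
      m s * V a b (c / m s) (d / m s)
        (p * dt u (D.vec s) + q * (-(dt u (D.vec (nx (nx s)))))) =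
      V a b c d (p * dt u (D'.vec (e s)) + q * (-(dt u (D'.vec (nx (nx (e s))))))) := by
    intro u a b c d
    rw [← V_unscale (g2 s), ← g1, ← g1, g5, g5, dt_smul_right, dt_smul_right, g3, g3]
    congr 1
    ring
  rw [key, key] at this
  exact this

lemma PLEat.flip (ha₁ : 0 < a₁) (hb₁ : 0 < b₁) (hu₁ : u₁ ≠ 0) (ha₂ : 0 < a₂) (hb₂ : 0 < b₂)
    (hu₂ : u₂ ≠ 0) {s : Side} (h : IsFlip s D D') (hZ : ZOK D Z)
    (hf : ZFlip s (D.glue s) Z Z') (hk₁ : KK D Z u₁ a₁ b₁) (hk₂ : KK D Z u₂ a₂ b₂)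
    (hp : PLEat D Z u₁ a₁ b₁ u₂ a₂ b₂ s) (hp' : PLEat D Z u₁ a₁ b₁ u₂ a₂ b₂ (nx (D.glue s))) :
    PLEat D' Z' u₁ a₁ b₁ u₂ a₂ b₂ (nx (nx s)) := by
  intro c₁ d₁ c₂ d₂ h1 h2 p q hp0 hq0 hpq
  obtain ⟨C₁, E₁, j1, j1'⟩ := hk₁.joint ha₁ hb₁ hu₁ h hZ
  obtain ⟨C₂, E₂, j2, j2'⟩ := hk₂.joint ha₂ hb₂ hu₂ h hZ
  have n1 := TriV.flip h hf j1 j1'
  have n2 := TriV.flip h hf j2 j2'
  have eq1 := V_eq_tri ha₁ hb₁ hp0 hq0 hpq (h1.1.symm.trans n1.1) (h1.2.1.symm.trans n1.2.1)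
    (h1.2.2.symm.trans n1.2.2)
  have eq2 := V_eq_tri ha₂ hb₂ hp0 hq0 hpq (h2.1.symm.trans n2.1) (h2.2.1.symm.trans n2.2.1)
    (h2.2.2.symm.trans n2.2.2)
  rw [eq1, eq2, h.vec_3, nx3, h.vec_2, ← dt_neg_right, ← dt_neg_right]
  have e2 := D.closed (D.glue s)
  have e1 := D.closed s
  have hx1 : D.vec (nx s) = -D.vec s - D.vec (nx (nx s)) := by
    rw [eq_sub_iff_add_eq, eq_neg_iff_add_eq_zero, ← e1]; abel
  have hx2 : D.vec (nx (nx (D.glue s))) = D.vec s - D.vec (nx (D.glue s)) := by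
    rw [h.1] at e2
    rw [eq_sub_iff_add_eq, ← sub_eq_zero, ← e2]; abel
  rcases cover (L := D.vec (nx (D.glue s))) (J := D.vec s) (K := -D.vec (nx (nx s)))
    (by
      have := D.pos (D.glue s)
      rw [h.1, dt_neg_left, ← dt_comm] at this
      exact this)
    (by
      have := D.pos (nx (nx s))
      rw [nx3] at this
      rw [dt_neg_right, ← dt_comm]; exact this)
    (by
      have := h.conv_i
      rw [dt_neg_right, ← dt_comm]; exact this)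
    (by
      have := h.conv_j
      rw [hx1, hx2] at this
      simp only [dt, Prod.fst_sub, Prod.snd_sub, Prod.fst_neg, Prod.snd_neg] at this ⊢
      linarith) hp0 hq0 hpq with ⟨p', q', g1, g2, g3, g4⟩ | ⟨p', q', g1, g2, g3, g4⟩
  · rw [g4, g4]
    have := hp' _ _ _ _ j1' j2' p' q' g1 g2 g3
    rwa [nx3, h.1, dt_neg_right, neg_neg, dt_neg_right, neg_neg] at this
  · rw [g4, g4]
    have := hp _ _ _ _ j1 j2 p' q' g1 g2 g3
    rwa [← dt_neg_right, ← dt_neg_right] at this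

/-- everything that is transported -/
structure Pair (D : Surf) (Z : Side → ℝ) (u₁ : ℝ × ℝ) (a₁ b₁ : ℝ) (u₂ : ℝ × ℝ) (a₂ b₂ : ℝ) :
    Prop where
  zok : ZOK D Z
  k₁ : KK D Z u₁ a₁ b₁
  k₂ : KK D Z u₂ a₂ b₂
  le : ∀ s, PLEat D Z u₁ a₁ b₁ u₂ a₂ b₂ s

/-- a move, with the vertex scales -/
def StepZ (x y : Surf × (Side → ℝ)) : Prop :=
  (∃ e m, IsRelabel e m x.1 y.1 ∧ ZRel e m x.2 y.2) ∨
    ∃ s, IsFlip s x.1 y.1 ∧ ZFlip s (x.1.glue s) x.2 y.2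

lemma StepZ.zok {x y : Surf × (Side → ℝ)} (h : StepZ x y) (hz : ZOK x.1 x.2) :
    ZOK y.1 y.2 := by
  rcases h with ⟨e, m, h1, h2⟩ | ⟨s, h1, h2⟩
  · exact h1.zok hz h2
  · exact h1.zok hz h2

lemma StepZ.kk {x y : Surf × (Side → ℝ)} (h : StepZ x y) (hz : ZOK x.1 x.2)
    {u : ℝ × ℝ} {a b : ℝ} (ha : 0 < a) (hb : 0 < b) (hu : u ≠ 0) (hk : KK x.1 x.2 u a b) :
    KK y.1 y.2 u a b := by
  rcases h with ⟨e, m, h1, h2⟩ | ⟨s, h1, h2⟩
  · exact hk.relabel h1 h2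
  · exact hk.flip ha hb hu h1 hz h2

lemma StepZ.pair (ha₁ : 0 < a₁) (hb₁ : 0 < b₁) (hu₁ : u₁ ≠ 0) (ha₂ : 0 < a₂) (hb₂ : 0 < b₂)
    (hu₂ : u₂ ≠ 0) {x y : Surf × (Side → ℝ)} (h : StepZ x y)
    (hp : Pair x.1 x.2 u₁ a₁ b₁ u₂ a₂ b₂) : Pair y.1 y.2 u₁ a₁ b₁ u₂ a₂ b₂ := by
  refine ⟨h.zok hp.zok, h.kk hp.zok ha₁ hb₁ hu₁ hp.k₁, h.kk hp.zok ha₂ hb₂ hu₂ hp.k₂, ?_⟩
  rcases h with ⟨e, m, h1, h2⟩ | ⟨s, h1, h2⟩
  · intro s
    obtain ⟨s, rfl⟩ := e.surjective s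
    exact (hp.le s).relabel h1 h2
  · have hst := x.1.glue_fst s
    have h1' := h1.symm'
    have h2' : ZFlip (x.1.glue s) (x.1.glue (x.1.glue s)) x.2 y.2 := by
      rw [x.1.glue_glue]; exact h2.symm' hst
    have n1 := PLEat.flip ha₁ hb₁ hu₁ ha₂ hb₂ hu₂ h1 hp.zok h2 hp.k₁ hp.k₂ (hp.le _) (hp.le _)
    have n2 := PLEat.flip ha₁ hb₁ hu₁ ha₂ hb₂ hu₂ h1' hp.zok h2' hp.k₁ hp.k₂ (hp.le _) (hp.le _)
    intro z
    rcases side_cases s (x.1.glue s) z with (rfl | rfl | rfl) | (rfl | rfl | rfl) | ⟨e1, e2⟩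
    · have := n1.rot
      rwa [nx3] at this
    · have := n1.rot.rot
      rwa [nx3] at this
    · exact n1
    · have := n2.rot
      rwa [nx3] at this
    · have := n2.rot.rot
      rwa [nx3] at this
    · exact n2
    · intro c₁ d₁ c₂ d₂ t1 t2
      have back : ∀ {u : ℝ × ℝ} {a b c d : ℝ}, TriV y.1 y.2 u a b z c d →
          TriV x.1 x.2 u a b z c d := by
        intro u a b c d ht
        obtain ⟨g1, g2, g3⟩ := ht
        rw [h2.z_o e1 e2] at g1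
        rw [h2.z_o (x := nx z) e1 e2, h1.vec_o e1 e2] at g2
        rw [h2.z_o (x := nx (nx z)) e1 e2, h1.vec_o (x := nx (nx z)) e1 e2] at g3
        exact ⟨g1, g2, g3⟩
      have := hp.le z c₁ d₁ c₂ d₂ (back t1) (back t2)
      rw [← h1.vec_o e1 e2, ← h1.vec_o (x := nx (nx z)) e1 e2] at this
      exact this

end Pool.Agent.N222.Dil
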