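import Mathlib

/-!
# The triangulable locus of dilation surfaces of genus two with one cone point

A triangulated dilation surface of genus two with a single cone point (of angle `6π`) is six
plane triangles whose eighteen sides are glued in pairs by maps `z ↦ a z + b`, `a > 0`, in such a
way that all corners meet in a single vertex (`1 - 9 + 6 = -2`).
-/

open scoped MatrixGroups

namespace Pool.Agent.N222.Dil

/-- The sides of six oriented triangles: `(f, i)` is the side of the triangle `f` that runs from
its corner `i` to its corner `i + 1`. -/
abbrev Side : Type := Fin 6 × Fin 3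

/-- The next side of the same triangle, in the positive sense. -/
def nx (s : Side) : Side := (s.1, s.2 + 1)

/-- The determinant of two vectors of the plane. -/
def dt (x y : ℝ × ℝ) : ℝ := x.1 * y.2 - x.2 * y.1

/-- A triangulated dilation surface of genus two with one cone point. -/
structure Surf where
  /-- the side to which a side is glued -/
  glue : Side → Side
  /-- the side as a vector of the plane, in the chart of its triangle -/
  vec : Side → ℝ × ℝ
  /-- the sides are glued in pairs -/
  glue_glue : ∀ s, glue (glue s) = s
  glue_ne : ∀ s, glue s ≠ s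
  /-- turning around a vertex (cross the side, then take the next one) one meets all corners:
  there is one vertex, the cone point -/
  one_vertex : ∀ s t : Side, ∃ n : ℕ, (fun x => nx (glue x))^[n] s = t
  /-- the three sides of a triangle close up -/
  closed : ∀ s, vec s + vec (nx s) + vec (nx (nx s)) = 0
  /-- the triangles are nondegenerate and positively oriented -/
  pos : ∀ s, 0 < dt (vec s) (vec (nx s))
  /-- glued sides are identified, with reversed orientation, by a map `z ↦ r z + b`, `r > 0` -/
  parallel : ∀ s, ∃ r : ℝ, 0 < r ∧ vec (glue s) = -(r • vec s)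

/-- The topology of the coordinates: gluings are discrete, vectors vary continuously. -/
instance : TopologicalSpace Surf :=
  TopologicalSpace.induced (fun D => (D.glue, D.vec)) inferInstance

/-- `D'` is `D` with its triangles and their sides renamed by `e`, and the chart of each triangle
rescaled by the factor `m`. -/
def Relabel (D D' : Surf) : Prop :=
  ∃ (e : Side ≃ Side) (m : Side → ℝ), (∀ s, e (nx s) = nx (e s)) ∧ (∀ s, 0 < m s) ∧
    (∀ s, m (nx s) = m s) ∧ (∀ s, D'.glue (e s) = e (D.glue s)) ∧
    ∀ s, D'.vec (e s) = m s • D.vec s

/-- The new names of the four outer sides of the quadrilateral made of the triangles of `s` and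
`t`, when its diagonal `s = t` is replaced by the other diagonal. -/
def turn (s t x : Side) : Side :=
  if x = nx s then nx (nx t) else if x = nx (nx t) then nx t
  else if x = nx t then nx (nx s) else if x = nx (nx s) then nx s else x

/-- `D'` is `D` after a flip: the edge `s` (whose two triangles are drawn in one common chart) is
the diagonal of a convex quadrilateral and is replaced by the other diagonal. -/
def Flip (D D' : Surf) : Prop :=
  ∃ s : Side, D.vec (D.glue s) = -D.vec s ∧
    (∀ x, D'.glue (turn s (D.glue s) x) = turn s (D.glue s) (D.glue x)) ∧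
    ∀ x, x ≠ s → x ≠ D.glue s → D'.vec (turn s (D.glue s) x) = D.vec x

/-- The space of triangulable dilation surfaces of genus two with one cone point: triangulated
surfaces up to renaming, change of charts of the triangles, and flips, with the quotient
topology. -/
def Tri : Type := Quot (fun D D' : Surf => Relabel D D' ∨ Flip D D')

instance : TopologicalSpace Tri :=
  inferInstanceAs (TopologicalSpace (Quot (fun D D' : Surf => Relabel D D' ∨ Flip D D')))

/-- The linear action of `SL(2, ℝ)` on the plane. -/
def lin (g : SL(2, ℝ)) (x : ℝ × ℝ) : ℝ × ℝ :=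
  (g.1 0 0 * x.1 + g.1 0 1 * x.2, g.1 1 0 * x.1 + g.1 1 1 * x.2)

lemma lin_add (g : SL(2, ℝ)) (x y : ℝ × ℝ) : lin g (x + y) = lin g x + lin g y := by
  ext <;> simp [lin] <;> ring

lemma lin_smul (g : SL(2, ℝ)) (r : ℝ) (x : ℝ × ℝ) : lin g (r • x) = r • lin g x := by
  ext <;> simp [lin] <;> ring

lemma lin_neg (g : SL(2, ℝ)) (x : ℝ × ℝ) : lin g (-x) = -lin g x := by
  ext <;> simp [lin] <;> ring

lemma dt_lin (g : SL(2, ℝ)) (x y : ℝ × ℝ) : dt (lin g x) (lin g y) = dt x y := by
  have h := g.2
  rw [Matrix.det_fin_two] at h
  simp only [dt, lin]
  linear_combination (x.1 * y.2 - x.2 * y.1) * h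

/-- The action of `SL(2, ℝ)` on triangulated surfaces, by post-composition with all charts. -/
instance : MulAction SL(2, ℝ) Surf where
  smul g D :=
    { glue := D.glue
      vec := fun s => lin g (D.vec s)
      glue_glue := D.glue_glue
      glue_ne := D.glue_ne
      one_vertex := D.one_vertex
      closed := fun s => by
        rw [← lin_add, ← lin_add, D.closed]; ext <;> simp [lin]
      pos := fun s => by rw [dt_lin]; exact D.pos s
      parallel := fun s => by
        obtain ⟨r, hr, h⟩ := D.parallel s
        exact ⟨r, hr, by rw [h, lin_neg, lin_smul]⟩ }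
  one_smul D := by
    cases D
    simp only [HSMul.hSMul, lin]
    congr 1
    ext s <;> simp
  mul_smul g h D := by
    cases D
    simp only [HSMul.hSMul]
    congr 1
    ext s <;> simp [lin, Matrix.mul_apply, Fin.sum_univ_two] <;> ring

lemma smul_glue (g : SL(2, ℝ)) (D : Surf) : (g • D).glue = D.glue := rfl

lemma smul_vec (g : SL(2, ℝ)) (D : Surf) (s : Side) : (g • D).vec s = lin g (D.vec s) := rfl

lemma rel_smul (g : SL(2, ℝ)) {D D' : Surf} (h : Relabel D D' ∨ Flip D D') :
    Relabel (g • D) (g • D') ∨ Flip (g • D) (g • D') := by
  rcases h with ⟨e, m, h1, h2, h3, h4, h5⟩ | ⟨s, h1, h2, h3⟩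
  · exact Or.inl ⟨e, m, h1, h2, h3, h4, fun s => by rw [smul_vec, smul_vec, h5, lin_smul]⟩
  · exact Or.inr ⟨s, by rw [smul_vec, smul_vec, smul_glue, h1, lin_neg], h2,
      fun x hx hx' => by rw [smul_vec, smul_vec, smul_glue, h3 x hx hx']⟩

/-- The action of `SL(2, ℝ)` on the space of triangulable dilation surfaces. -/
instance : MulAction SL(2, ℝ) Tri where
  smul g := Quot.map (g • ·) (fun _ _ h => rel_smul g h)
  one_smul x := by
    induction x using Quot.ind with
    | mk D => exact congrArg (Quot.mk _) (one_smul _ D)
  mul_smul g h x := by
    induction x using Quot.ind with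
    | mk D => exact congrArg (Quot.mk _) (mul_smul g h D)

end Pool.Agent.N222.Dil
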