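import Pool.Agent.N222.Dil.Slopes

/-!
# No dense orbit in a component of the triangulable locus
-/

open scoped MatrixGroups

namespace Pool.Agent.N222.Dil

open Relation

/-! ### continuity of the slopes -/

lemma continuous_vec_glue (s : Side) : Continuous (fun D : Surf => D.vec (D.glue s)) := by
  rw [continuous_iff_continuousAt]
  intro D
  have h1 : ContinuousAt (fun E : Surf => E.vec (D.glue s)) D := (continuous_vec _).continuousAt
  refine h1.congr ?_
  have h2 : {E : Surf | E.glue = D.glue} ∈ nhds D := (isOpen_glue _).mem_nhds rfl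
  filter_upwards [h2] with E hE
  have hE' : E.glue = D.glue := hE
  rw [hE']

lemma continuous_r (s : Side) : Continuous (fun D : Surf => D.r s) := by
  unfold Surf.r
  exact Continuous.div (continuous_dt (continuous_vec_glue _) (continuous_vec _)).neg
    (continuous_dt (continuous_vec _) (continuous_vec _)) fun D => (D.pos s).ne'

lemma continuous_slA : Continuous slA := by
  unfold slA
  exact ((continuous_r _).sub (continuous_r _)).div
    (continuous_dt (continuous_vec _) (continuous_vec _)) fun D => (D.pos (0, 0)).ne'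

lemma continuous_slB : Continuous slB := by
  unfold slB
  refine Continuous.div (((continuous_r _).mul (Continuous.div ((continuous_r _).mul
    (continuous_r _)) (continuous_r _) fun D => (D.r_pos _).ne')).mul
    ((continuous_r _).sub (continuous_r _)))
    (continuous_dt (continuous_vec _) (continuous_vec _)) fun D => (D.pos (3, 0)).ne'

/-- split surfaces with a slope ratio below the critical value -/
def Vlt : Set Surf := {D | D.glue = tau ∧ 0 < slA D ∧ 0 < slB D ∧
  slA D ^ 2 + slB D ^ 2 < 9 / 4 * (slA D * slB D)}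

/-- split surfaces with a slope ratio above the critical value -/
def Vgt : Set Surf := {D | D.glue = tau ∧ 0 < slA D ∧ 0 < slB D ∧
  9 / 4 * (slA D * slB D) < slA D ^ 2 + slB D ^ 2}

lemma isOpen_Vlt : IsOpen Vlt := by
  have h1 := isOpen_glue tau
  have h2 : IsOpen {D : Surf | 0 < slA D} := isOpen_lt continuous_const continuous_slA
  have h3 : IsOpen {D : Surf | 0 < slB D} := isOpen_lt continuous_const continuous_slB
  have h4 : IsOpen {D : Surf | slA D ^ 2 + slB D ^ 2 < 9 / 4 * (slA D * slB D)} :=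
    isOpen_lt ((continuous_slA.pow 2).add (continuous_slB.pow 2))
      (continuous_const.mul (continuous_slA.mul continuous_slB))
  exact h1.inter (h2.inter (h3.inter h4))

lemma isOpen_Vgt : IsOpen Vgt := by
  have h1 := isOpen_glue tau
  have h2 : IsOpen {D : Surf | 0 < slA D} := isOpen_lt continuous_const continuous_slA
  have h3 : IsOpen {D : Surf | 0 < slB D} := isOpen_lt continuous_const continuous_slB
  have h4 : IsOpen {D : Surf | 9 / 4 * (slA D * slB D) < slA D ^ 2 + slB D ^ 2} :=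
    isOpen_lt (continuous_const.mul (continuous_slA.mul continuous_slB))
      ((continuous_slA.pow 2).add (continuous_slB.pow 2))
  exact h1.inter (h2.inter (h3.inter h4))

/-- No surface of `Vlt` is equivalent to one of `Vgt`. -/
lemma Vlt_Vgt {D D' : Surf} (h : D ∈ Vlt) (h' : D' ∈ Vgt) : ¬ ReflTransGen Step D D' := by
  intro hc
  obtain ⟨g1, g2, g3, g4⟩ := h
  obtain ⟨g1', g2', g3', g4'⟩ := h'
  have := split_unique (slopes_split g1 g2 g3) (slopes_split g1' g2' g3') hc
  have p1 := mul_lt_mul_of_pos_right g4 (mul_pos g2' g3')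
  have p2 := mul_lt_mul_of_pos_right g4' (mul_pos g2 g3)
  linarith

/-! ### the action -/

lemma smul_r (g : SL(2, ℝ)) (D : Surf) (s : Side) : (g • D).r s = D.r s := by
  apply Surf.r_unique
  rw [smul_glue, smul_vec, smul_vec, D.vec_glue, lin_neg, lin_smul]

lemma smul_slA (g : SL(2, ℝ)) (D : Surf) : slA (g • D) = slA D := by
  unfold slA
  rw [smul_r, smul_r, smul_vec, smul_vec, dt_lin]

lemma smul_slB (g : SL(2, ℝ)) (D : Surf) : slB (g • D) = slB D := by
  unfold slB
  simp only [smul_r, smul_vec, dt_lin]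

lemma smul_Vgt (g : SL(2, ℝ)) {D : Surf} (h : D ∈ Vgt) : g • D ∈ Vgt := by
  obtain ⟨g1, g2, g3, g4⟩ := h
  refine ⟨g1, ?_, ?_, ?_⟩
  · rw [smul_slA]; exact g2
  · rw [smul_slB]; exact g3
  · rw [smul_slA, smul_slB]; exact g4

/-- the class of a triangulated surface -/
def mk (D : Surf) : Tri := Quot.mk _ D

lemma mk_eq {D D' : Surf} (h : mk D = mk D') : ReflTransGen Step D D' :=
  chain_of_eqvGen (Quot.eqvGen_exact h)

lemma eq_mk {D D' : Surf} (h : ReflTransGen Step D D') : mk D = mk D' := by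
  induction h with
  | refl => rfl
  | tail _ h ih => exact ih.trans (Quot.sound h)

lemma smul_mk (g : SL(2, ℝ)) (D : Surf) : g • mk D = mk (g • D) := rfl

lemma isOpen_mk {U : Set Surf} (hU : IsOpen U) : IsOpen (mk '' U) := by
  have h1 : IsOpen (mk ⁻¹' (mk '' U)) := by
    have : mk ⁻¹' (mk '' U) = {D : Surf | ∃ D' ∈ U, ReflTransGen Step D D'} := by
      ext D
      constructor
      · rintro ⟨D', h1, h2⟩
        exact ⟨D', h1, mk_eq h2.symm⟩
      · rintro ⟨D', h1, h2⟩
        exact ⟨D', h1, (eq_mk h2).symm⟩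
    rw [this]
    exact isOpen_sat hU
  exact isOpen_coinduced.2 h1

lemma continuous_mk : Continuous mk := continuous_quot_mk

/-! ### the example -/

/-- the vectors of the example -/
noncomputable def exV (h : ℝ) (s : Side) : ℝ × ℝ :=
  (![![(1, 0), (1 / 2, 1), (-(3 / 2), -1)], ![(3 / 2, 1), (-1, 2), (-(1 / 2), -3)],
    ![(1 / 2, 3), (-1, -2), (1 / 2, -1)],
    ![(-1, 0), (-(1 / 2), -h), (3 / 2, h)], ![(-(3 / 2), -h), (1, -(2 * h)), (1 / 2, 3 * h)],
    ![(-(1 / 2), -(3 * h)), (1, 2 * h), (-(1 / 2), h)]] : Fin 6 → Fin 3 → ℝ × ℝ) s.1 s.2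

/-- the dilation ratios of the example -/
noncomputable def exR (s : Side) : ℝ :=
  (![![1, 2, 1], ![1, 1 / 2, 1], ![1, 1 / 2, 2],
    ![1, 2, 1], ![1, 1 / 2, 1], ![1, 1 / 2, 2]] : Fin 6 → Fin 3 → ℝ) s.1 s.2

lemma exR_pos (s : Side) : 0 < exR s := by
  obtain ⟨f, i⟩ := s
  fin_cases f <;> fin_cases i <;> simp [exR]

lemma exV_glue (h : ℝ) (s : Side) : exV h (tau s) = -(exR s • exV h s) := by
  obtain ⟨f, i⟩ := s
  fin_cases f <;> fin_cases i <;> simp [exR, exV, tau]

lemma exV_closed (h : ℝ) (s : Side) : exV h s + exV h (nx s) + exV h (nx (nx s)) = 0 := by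
  obtain ⟨f, i⟩ := s
  fin_cases f <;> fin_cases i <;> simp [exV, nx] <;> norm_num <;> ring

lemma exV_pos {h : ℝ} (hh : 0 < h) (s : Side) : 0 < dt (exV h s) (exV h (nx s)) := by
  obtain ⟨f, i⟩ := s
  fin_cases f <;> fin_cases i <;> simp [exV, nx, dt] <;> linarith

lemma tau_one_vertex (s t : Side) : ∃ n : ℕ, (fun x => nx (tau x))^[n] s = t := by
  have h1 : ∀ s : Side, ∃ n : Fin 18, (fun x => nx (tau x))^[n.1] (0, 0) = s := by decide
  have h2 : ∀ s : Side, (fun x => nx (tau x))^[18] s = s := by decide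
  obtain ⟨n, hn⟩ := h1 s
  obtain ⟨k, hk⟩ := h1 t
  refine ⟨k.1 + (18 - n.1), ?_⟩
  have e : (18 - n.1) + n.1 = 18 := by omega
  rw [Function.iterate_add_apply, ← hn, ← Function.iterate_add_apply (fun x => nx (tau x)) (18 - n.1)
    n.1, e, h2, hk]

/-- the example -/
noncomputable def ex (h : Set.Ioi (0 : ℝ)) : Surf where
  glue := tau
  vec := exV h.1
  glue_glue := tau_tau
  glue_ne := tau_ne
  one_vertex := tau_one_vertex
  closed := exV_closed h.1
  pos := exV_pos h.2
  parallel s := ⟨exR s, exR_pos s, exV_glue h.1 s⟩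

lemma ex_r (h : Set.Ioi (0 : ℝ)) (s : Side) : (ex h).r s = exR s :=
  Surf.r_unique _ (exV_glue h.1 s)

lemma continuous_ex : Continuous ex := by
  rw [continuous_induced_rng]
  refine continuous_const.prodMk ?_
  refine continuous_pi fun s => ?_
  obtain ⟨f, i⟩ := s
  change Continuous (fun h : Set.Ioi (0 : ℝ) => exV h.1 (f, i))
  fin_cases f <;> fin_cases i <;> simp only [exV] <;> simp <;> constructor <;> fun_prop

lemma ex_slA (h : Set.Ioi (0 : ℝ)) : slA (ex h) = 1 / 2 := by
  unfold slA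
  simp only [ex_r]
  change (exR (1, 2) - exR (1, 1)) / dt (exV h.1 (0, 0)) (exV h.1 (0, 1)) = 1 / 2
  simp [exR, exV, dt]
  norm_num

lemma ex_slB (h : Set.Ioi (0 : ℝ)) : slB (ex h) = 1 / 2 / h.1 := by
  unfold slB
  simp only [ex_r]
  change exR (0, 0) * (exR (0, 0) * exR (1, 1) / exR (4, 1)) * (exR (4, 2) - exR (4, 1)) /
    dt (exV h.1 (3, 0)) (exV h.1 (3, 1)) = 1 / 2 / h.1
  simp [exR, exV, dt]
  norm_num

/-- the parameters one and two -/
def one' : Set.Ioi (0 : ℝ) := ⟨1, Set.mem_Ioi.2 one_pos⟩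

@[inherit_doc one'] def two' : Set.Ioi (0 : ℝ) := ⟨2, Set.mem_Ioi.2 two_pos⟩

lemma ex_one : ex one' ∈ Vlt := by
  refine ⟨rfl, ?_, ?_, ?_⟩
  · rw [ex_slA]; norm_num
  · rw [ex_slB]; norm_num [one']
  · rw [ex_slA, ex_slB]; norm_num [one']

lemma ex_two : ex two' ∈ Vgt := by
  refine ⟨rfl, ?_, ?_, ?_⟩
  · rw [ex_slA]; norm_num
  · rw [ex_slB]; norm_num [two']
  · rw [ex_slA, ex_slB]; norm_num [two']

/-- The two examples lie in one component. -/
lemma ex_connected : mk (ex two') ∈ connectedComponent (mk (ex one')) := by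
  have : PreconnectedSpace (Set.Ioi (0 : ℝ)) := Subtype.preconnectedSpace isPreconnected_Ioi
  have h1 : IsPreconnected (Set.range (fun h => mk (ex h))) :=
    isPreconnected_range (continuous_mk.comp continuous_ex)
  exact h1.subset_connectedComponent ⟨one', rfl⟩ ⟨two', rfl⟩

/-- No `SL(2, ℝ)`-orbit is dense in the component of the example. -/
theorem no_dense_orbit (x : Tri) :
    ¬ connectedComponent (mk (ex one')) ⊆ closure (MulAction.orbit SL(2, ℝ) x) := by
  intro hcl
  have m1 : mk (ex one') ∈ closure (MulAction.orbit SL(2, ℝ) x) :=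
    hcl mem_connectedComponent
  have m2 : mk (ex two') ∈ closure (MulAction.orbit SL(2, ℝ) x) := hcl ex_connected
  obtain ⟨y1, ⟨D1, h1, rfl⟩, g1, e1⟩ :=
    mem_closure_iff.1 m1 _ (isOpen_mk isOpen_Vlt) ⟨_, ex_one, rfl⟩
  obtain ⟨y2, ⟨D2, h2, rfl⟩, g2, e2⟩ :=
    mem_closure_iff.1 m2 _ (isOpen_mk isOpen_Vgt) ⟨_, ex_two, rfl⟩
  beta_reduce at e1 e2
  have e3 : mk D1 = mk ((g1 * g2⁻¹) • D2) := by
    rw [← smul_mk, mul_smul, ← e2, inv_smul_smul, e1]
  exact Vlt_Vgt h1 (smul_Vgt _ h2) (mk_eq e3)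

end Pool.Agent.N222.Dil
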