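import Pool.Agent.N222.Dil.Basic

/-!
# Relabellings and flips: transport of the vertex scale and of V-shaped functions
-/

open scoped MatrixGroups

namespace Pool.Agent.N222.Dil

/-- relabelling with explicit data -/
def IsRelabel (e : Side ≃ Side) (m : Side → ℝ) (D D' : Surf) : Prop :=
  (∀ s, e (nx s) = nx (e s)) ∧ (∀ s, 0 < m s) ∧
    (∀ s, m (nx s) = m s) ∧ (∀ s, D'.glue (e s) = e (D.glue s)) ∧
    ∀ s, D'.vec (e s) = m s • D.vec s

/-- flip with explicit data -/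
def IsFlip (s : Side) (D D' : Surf) : Prop :=
  D.vec (D.glue s) = -D.vec s ∧
    (∀ x, D'.glue (turn s (D.glue s) x) = turn s (D.glue s) (D.glue x)) ∧
    ∀ x, x ≠ s → x ≠ D.glue s → D'.vec (turn s (D.glue s) x) = D.vec x

/-- a vertex scale -/
structure ZOK (D : Surf) (Z : Side → ℝ) : Prop where
  pos : ∀ s, 0 < Z s
  glue : ∀ s, Z (D.glue s) = D.r s * Z (nx s)

def ZRel (e : Side ≃ Side) (m : Side → ℝ) (Z Z' : Side → ℝ) : Prop :=
  ∀ s, Z' (e s) = m s * Z s

def ZFlip (s t : Side) (Z Z' : Side → ℝ) : Prop :=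
  (∀ x, x ≠ s → x ≠ t → Z' (turn s t x) = Z x) ∧ Z' s = Z (nx (nx t)) ∧ Z' t = Z (nx (nx s))

/-- two vertex scales are proportional -/
lemma ZOK.unique {D : Surf} {Z Z' : Side → ℝ} (h : ZOK D Z) (h' : ZOK D Z') :
    ∃ k : ℝ, 0 < k ∧ ∀ s, Z' s = k * Z s := by
  have step : ∀ s, Z' (nx (D.glue s)) / Z (nx (D.glue s)) = Z' s / Z s := by
    intro s
    have e1 := h.glue (D.glue s)
    have e2 := h'.glue (D.glue s)
    rw [D.glue_glue] at e1 e2
    have := D.r_pos (D.glue s)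
    have := h.pos (nx (D.glue s))
    rw [e1, e2]
    field_simp
  have it : ∀ n : ℕ, ∀ s, Z' ((fun x => nx (D.glue x))^[n] s) / Z ((fun x => nx (D.glue x))^[n] s)
      = Z' s / Z s := by
    intro n
    induction n with
    | zero => intro s; rfl
    | succ n ih =>
      intro s
      rw [Function.iterate_succ_apply', step, ih]
  refine ⟨Z' (0, 0) / Z (0, 0), div_pos (h'.pos _) (h.pos _), fun s => ?_⟩
  obtain ⟨n, hn⟩ := D.one_vertex (0, 0) s
  have := it n (0, 0)
  rw [hn] at this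
  have hp := h.pos s
  rw [← this]
  field_simp

lemma ZOK.smul {D : Surf} {Z : Side → ℝ} (h : ZOK D Z) {k : ℝ} (hk : 0 < k) :
    ZOK D (fun s => k * Z s) :=
  ⟨fun s => mul_pos hk (h.pos s), fun s => by simp only [h.glue]; ring⟩

section relabel

variable {e : Side ≃ Side} {m : Side → ℝ} {D D' : Surf} (h : IsRelabel e m D D')
include h

lemma IsRelabel.r_eq (s : Side) : D'.r (e s) = m (D.glue s) * D.r s / m s := by
  obtain ⟨h1, h2, h3, h4, h5⟩ := h
  apply Surf.r_unique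
  rw [h4, h5, D.vec_glue, h5, smul_neg, smul_smul, smul_smul]
  have := (h2 s).ne'
  congr 2
  field_simp

lemma IsRelabel.zok {Z Z' : Side → ℝ} (hZ : ZOK D Z) (hr : ZRel e m Z Z') : ZOK D' Z' := by
  have hr' := h.r_eq
  obtain ⟨h1, h2, h3, h4, h5⟩ := h
  constructor
  · intro s
    obtain ⟨s, rfl⟩ := e.surjective s
    rw [hr]
    exact mul_pos (h2 s) (hZ.pos s)
  · intro s
    obtain ⟨s, rfl⟩ := e.surjective s
    rw [h4, hr, ← h1, hr, hr', hZ.glue, h3]
    have := (h2 s).ne'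
    field_simp

end relabel

/-! ### The shape of a flip -/

section flip

variable {s : Side} {D D' : Surf} (h : IsFlip s D D')
include h

lemma IsFlip.symm' : IsFlip (D.glue s) D D' := by
  obtain ⟨h1, h2, h3⟩ := h
  have hst := D.glue_fst s
  refine ⟨?_, ?_, ?_⟩
  · rw [D.glue_glue, h1, neg_neg]
  · intro x
    rw [D.glue_glue, turn_symm hst, turn_symm hst, h2]
  · intro x hx hx'
    rw [D.glue_glue] at hx' ⊢
    rw [turn_symm hst, h3 x hx' hx]

lemma IsFlip.glue_s : D'.glue s = D.glue s := by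
  have := h.2.1 s
  rw [turn_5 (D.glue_fst s), turn_6 (D.glue_fst s)] at this
  exact this

lemma IsFlip.vec_1 : D'.vec (nx (nx (D.glue s))) = D.vec (nx s) := by
  have h3 := h.2.2 (nx s) (nx_ne s) (ne_of_fst (D.glue_fst s) rfl rfl)
  rwa [turn_1] at h3

lemma IsFlip.vec_2 : D'.vec (nx s) = D.vec (nx (nx s)) := by
  have h3 := h.2.2 (nx (nx s)) (nx2_ne s) (ne_of_fst (D.glue_fst s) rfl rfl)
  rwa [turn_4 (D.glue_fst s)] at h3

lemma IsFlip.vec_3 : D'.vec (nx (nx s)) = D.vec (nx (D.glue s)) := by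
  have h3 := h.2.2 (nx (D.glue s)) (ne_of_fst (D.glue_fst s).symm rfl rfl) (nx_ne _)
  rwa [turn_3 (D.glue_fst s)] at h3

lemma IsFlip.vec_4 : D'.vec (nx (D.glue s)) = D.vec (nx (nx (D.glue s))) := by
  have h3 := h.2.2 (nx (nx (D.glue s))) (ne_of_fst (D.glue_fst s).symm rfl rfl) (nx2_ne _)
  rwa [turn_2 (D.glue_fst s)] at h3

lemma IsFlip.vec_s : D'.vec s = -(D.vec (nx (nx s)) + D.vec (nx (D.glue s))) := by
  have := D'.nx2_vec (nx s)
  rw [nx3, h.vec_2, h.vec_3] at this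
  exact this

lemma IsFlip.vec_t : D'.vec (D.glue s) = -(D.vec (nx (nx (D.glue s))) + D.vec (nx s)) := by
  have := D'.nx2_vec (nx (D.glue s))
  rw [nx3, h.vec_4, h.vec_1] at this
  exact this

lemma IsFlip.vec_o {x : Side} (hx : x.1 ≠ s.1) (hx' : x.1 ≠ (D.glue s).1) :
    D'.vec x = D.vec x := by
  have h3 := h.2.2 x (by rintro rfl; exact hx rfl) (by rintro rfl; exact hx' rfl)
  rwa [turn_7 hx hx'] at h3

/-- convexity at the corner `i` -/
lemma IsFlip.conv_i : 0 < dt (D.vec (nx (nx s))) (D.vec (nx (D.glue s))) := by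
  have := D'.pos (nx s)
  rwa [h.vec_2, h.vec_3] at this

/-- convexity at the corner `j` -/
lemma IsFlip.conv_j : 0 < dt (D.vec (nx (nx (D.glue s)))) (D.vec (nx s)) := by
  have := D'.pos (nx (D.glue s))
  rwa [h.vec_4, h.vec_1] at this

lemma IsFlip.r_s : D.r s = 1 := by
  apply Surf.r_unique
  rw [h.1, one_smul]

lemma IsFlip.r_s' : D'.r s = 1 := by
  apply Surf.r_unique
  rw [h.glue_s, h.vec_t, h.vec_s, one_smul, neg_neg]
  have e1 := D.closed s
  have e2 := D.closed (D.glue s)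
  rw [h.1] at e2
  have : D.vec (nx s) + D.vec (nx (nx s)) + (D.vec (nx (D.glue s)) +
      D.vec (nx (nx (D.glue s)))) = 0 := by
    have : D.vec s + D.vec (nx s) + D.vec (nx (nx s)) + (-D.vec s + D.vec (nx (D.glue s)) +
      D.vec (nx (nx (D.glue s)))) = 0 := by rw [e1, e2, add_zero]
    rw [← this]; abel
  rw [neg_eq_iff_add_eq_zero, ← this]
  abel

end flip

lemma ZFlip.symm' {s t : Side} (hst : s.1 ≠ t.1) {Z Z' : Side → ℝ} (h : ZFlip s t Z Z') :
    ZFlip t s Z Z' := by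
  refine ⟨fun x hx hx' => ?_, h.2.2, h.2.1⟩
  rw [turn_symm hst, h.1 x hx' hx]

section zflip

variable {s t : Side} {Z Z' : Side → ℝ} (hst : s.1 ≠ t.1) (h : ZFlip s t Z Z')
include hst h

lemma ZFlip.z_1 : Z' (nx (nx t)) = Z (nx s) := by
  have := h.1 (nx s) (nx_ne s) (ne_of_fst hst rfl rfl)
  rwa [turn_1] at this

lemma ZFlip.z_2 : Z' (nx s) = Z (nx (nx s)) := by
  have := h.1 (nx (nx s)) (nx2_ne s) (ne_of_fst hst rfl rfl)
  rwa [turn_4 hst] at this

lemma ZFlip.z_3 : Z' (nx (nx s)) = Z (nx t) := by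
  have := h.1 (nx t) (ne_of_fst hst.symm rfl rfl) (nx_ne _)
  rwa [turn_3 hst] at this

lemma ZFlip.z_4 : Z' (nx t) = Z (nx (nx t)) := by
  have := h.1 (nx (nx t)) (ne_of_fst hst.symm rfl rfl) (nx2_ne _)
  rwa [turn_2 hst] at this

omit hst in
lemma ZFlip.z_o {x : Side} (hx : x.1 ≠ s.1) (hx' : x.1 ≠ t.1) : Z' x = Z x := by
  have := h.1 x (by rintro rfl; exact hx rfl) (by rintro rfl; exact hx' rfl)
  rwa [turn_7 hx hx'] at this

end zflip

/-- the vertex scale after a flip -/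
lemma IsFlip.zok {s : Side} {D D' : Surf} (h : IsFlip s D D') {Z Z' : Side → ℝ} (hZ : ZOK D Z)
    (hf : ZFlip s (D.glue s) Z Z') : ZOK D' Z' := by
  have hst := D.glue_fst s
  have zt : Z (D.glue s) = Z (nx s) := by rw [hZ.glue, h.r_s, one_mul]
  have zs : Z s = Z (nx (D.glue s)) := by
    have := hZ.glue (D.glue s)
    rwa [D.glue_glue, D.r_glue, h.r_s, inv_one, one_mul] at this
  have main : ∀ x, x ≠ s → x ≠ D.glue s →
      Z' (D'.glue (turn s (D.glue s) x)) = D'.r (turn s (D.glue s) x) * Z' (nx (turn s (D.glue s) x)) := by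
    intro x hx hx'
    have hy : D.glue x ≠ s := by
      intro hh; apply hx'; rw [← hh, D.glue_glue]
    have hy' : D.glue x ≠ D.glue s := by
      intro hh; apply hx; rw [← D.glue_glue x, hh, D.glue_glue]
    have hr : D'.r (turn s (D.glue s) x) = D.r x := by
      apply Surf.r_unique
      rw [h.2.1, h.2.2 _ hy hy', h.2.2 _ hx hx', D.vec_glue]
    have hn : Z' (nx (turn s (D.glue s) x)) = Z (nx x) := by
      rcases side_cases s (D.glue s) x with (rfl | rfl | rfl) | (rfl | rfl | rfl) | ⟨h1, h2⟩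
      · exact absurd rfl hx
      · rw [turn_1, nx3, hf.2.2]
      · rw [turn_4 hst, nx3, hf.z_3 hst, zs]
      · exact absurd rfl hx'
      · rw [turn_3 hst, nx3, hf.2.1]
      · rw [turn_2 hst, nx3, hf.z_1 hst, zt]
      · rw [turn_7 h1 h2, hf.z_o (x := nx x) h1 h2]
    rw [h.2.1, hf.1 _ hy hy', hr, hn, hZ.glue]
  constructor
  · intro x
    rcases side_cases s (D.glue s) x with (rfl | rfl | rfl) | (rfl | rfl | rfl) | ⟨h1, h2⟩
    · rw [hf.2.1]; exact hZ.pos _
    · rw [hf.z_2 hst]; exact hZ.pos _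
    · rw [hf.z_3 hst]; exact hZ.pos _
    · rw [hf.2.2]; exact hZ.pos _
    · rw [hf.z_4 hst]; exact hZ.pos _
    · rw [hf.z_1 hst]; exact hZ.pos _
    · rw [hf.z_o h1 h2]; exact hZ.pos _
  · intro x
    rcases side_cases s (D.glue s) x with (rfl | rfl | rfl) | (rfl | rfl | rfl) | ⟨h1, h2⟩
    · rw [h.glue_s, h.r_s', one_mul, hf.2.2, hf.z_2 hst]
    · have := main (nx (nx s)) (nx2_ne _) (ne_of_fst hst rfl rfl)
      rwa [turn_4 hst] at this
    · have := main (nx (D.glue s)) (ne_of_fst hst.symm rfl rfl) (nx_ne _)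
      rwa [turn_3 hst] at this
    · have h' := h.symm'
      have e : D'.glue (D.glue s) = s := by rw [h'.glue_s, D.glue_glue]
      rw [e, h'.r_s', one_mul, hf.2.1, hf.z_4 hst]
    · have := main (nx (nx (D.glue s))) (ne_of_fst hst.symm rfl rfl) (nx2_ne _)
      rwa [turn_2 hst] at this
    · have := main (nx s) (nx_ne _) (ne_of_fst hst rfl rfl)
      rwa [turn_1] at this
    · have := main x (by rintro rfl; exact h1 rfl) (by rintro rfl; exact h2 rfl)
      rwa [turn_7 h1 h2] at this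

end Pool.Agent.N222.Dil
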