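import Pool.Agent.N222.Dil.Reverse

/-!
# The moves are open
-/

open scoped MatrixGroups

namespace Pool.Agent.N222.Dil

open Relation

lemma Surf.ext' {D D' : Surf} (h1 : D.glue = D'.glue) (h2 : D.vec = D'.vec) : D = D' := by
  cases D; cases D'
  simp only at h1 h2
  subst h1 h2
  rfl

lemma continuous_coord : Continuous (fun D : Surf => (D.glue, D.vec)) := continuous_induced_dom

lemma continuous_glue (x : Side) : Continuous (fun D : Surf => D.glue x) :=
  (continuous_apply x).comp (continuous_fst.comp continuous_coord)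

lemma continuous_vec (x : Side) : Continuous (fun D : Surf => D.vec x) :=
  (continuous_apply x).comp (continuous_snd.comp continuous_coord)

lemma continuous_dt {X : Type*} [TopologicalSpace X] {f g : X → ℝ × ℝ} (hf : Continuous f)
    (hg : Continuous g) : Continuous (fun x => dt (f x) (g x)) :=
  dt_continuous.comp (hf.prodMk hg)

lemma isOpen_glue (τ : Side → Side) : IsOpen {D : Surf | D.glue = τ} := by
  have : {D : Surf | D.glue = τ} = ⋂ x, (fun D : Surf => D.glue x) ⁻¹' {τ x} := by
    ext D
    simp [funext_iff]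
  rw [this]
  exact isOpen_iInter_of_finite fun x => (isOpen_discrete _).preimage (continuous_glue x)

lemma continuous_relab (e : Side ≃ Side) (he : ∀ s, e (nx s) = nx (e s)) (m : Side → ℝ)
    (hm : ∀ s, 0 < m s) (hm' : ∀ s, m (nx s) = m s) : Continuous (relab e he m hm hm') := by
  rw [continuous_induced_rng]
  refine Continuous.prodMk ?_ ?_
  · refine continuous_pi fun x => ?_
    exact continuous_of_discreteTopology.comp (continuous_glue (e.symm x))
  · refine continuous_pi fun x => ?_
    exact (continuous_vec (e.symm x)).const_smul (m (e.symm x))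

/-- the vectors after a flip -/
def vecF (s t : Side) (v : Side → ℝ × ℝ) (x : Side) : ℝ × ℝ :=
  if x = s then -(v (nx (nx s)) + v (nx t)) else if x = t then -(v (nx (nx t)) + v (nx s))
  else v (sw s t (turn s t x))

section vecF
variable {s t : Side} (hst : s.1 ≠ t.1) (v : Side → ℝ × ℝ)

lemma vecF_s : vecF s t v s = -(v (nx (nx s)) + v (nx t)) := by simp [vecF]

include hst

lemma vecF_t : vecF s t v t = -(v (nx (nx t)) + v (nx s)) := by
  have : t ≠ s := by rintro rfl; exact hst rfl
  simp [vecF, this]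

lemma vecF_turn {x : Side} (hx : x ≠ s) (hx' : x ≠ t) : vecF s t v (turn s t x) = v x := by
  have e1 : turn s t x ≠ s := by
    rcases side_cases s t x with (rfl | rfl | rfl) | (rfl | rfl | rfl) | ⟨g1, g2⟩
    · exact absurd rfl hx
    · rw [turn_1]; exact ne_of_fst hst.symm rfl rfl
    · rw [turn_4 hst]; exact nx_ne _
    · exact absurd rfl hx'
    · rw [turn_3 hst]; exact nx2_ne _
    · rw [turn_2 hst]; exact ne_of_fst hst.symm rfl rfl
    · rw [turn_7 g1 g2]; exact hx
  have e2 : turn s t x ≠ t := by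
    rcases side_cases s t x with (rfl | rfl | rfl) | (rfl | rfl | rfl) | ⟨g1, g2⟩
    · exact absurd rfl hx
    · rw [turn_1]; exact nx2_ne _
    · rw [turn_4 hst]; exact ne_of_fst hst rfl rfl
    · exact absurd rfl hx'
    · rw [turn_3 hst]; exact ne_of_fst hst rfl rfl
    · rw [turn_2 hst]; exact nx_ne _
    · rw [turn_7 g1 g2]; exact hx'
  show (if _ then _ else if _ then _ else _) = _
  rw [if_neg e1, if_neg e2, turn_turn hst hx hx', sw_sw hst]

lemma vecF_1 : vecF s t v (nx (nx t)) = v (nx s) := by
  have := vecF_turn hst v (x := nx s) (nx_ne _) (ne_of_fst hst rfl rfl)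
  rwa [turn_1] at this

lemma vecF_2 : vecF s t v (nx s) = v (nx (nx s)) := by
  have := vecF_turn hst v (x := nx (nx s)) (nx2_ne _) (ne_of_fst hst rfl rfl)
  rwa [turn_4 hst] at this

lemma vecF_3 : vecF s t v (nx (nx s)) = v (nx t) := by
  have := vecF_turn hst v (x := nx t) (ne_of_fst hst.symm rfl rfl) (nx_ne _)
  rwa [turn_3 hst] at this

lemma vecF_4 : vecF s t v (nx t) = v (nx (nx t)) := by
  have := vecF_turn hst v (x := nx (nx t)) (ne_of_fst hst.symm rfl rfl) (nx2_ne _)
  rwa [turn_2 hst] at this

omit hst in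
lemma vecF_o {x : Side} (hx : x.1 ≠ s.1) (hx' : x.1 ≠ t.1) : vecF s t v x = v x := by
  have e1 : x ≠ s := by rintro rfl; exact hx rfl
  have e2 : x ≠ t := by rintro rfl; exact hx' rfl
  show (if _ then _ else if _ then _ else _) = _
  rw [if_neg e1, if_neg e2, turn_7 hx hx']
  simp [sw, hx, hx']

end vecF

/-- the flip of `E` at `s`, if the gluings are those of a flip `D → D'` -/
def flipD {s : Side} {D D' : Surf} (h : IsFlip s D D') (E : Surf) (hg : E.glue = D.glue)
    (hs : E.vec (D.glue s) = -E.vec s)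
    (h1 : 0 < dt (E.vec (nx (nx s))) (E.vec (nx (D.glue s))))
    (h2 : 0 < dt (E.vec (nx (nx (D.glue s)))) (E.vec (nx s))) : Surf where
  glue := D'.glue
  vec := vecF s (D.glue s) E.vec
  glue_glue := D'.glue_glue
  glue_ne := D'.glue_ne
  one_vertex := D'.one_vertex
  closed x := by
    have hst := D.glue_fst s
    rcases side_cases s (D.glue s) x with (rfl | rfl | rfl) | (rfl | rfl | rfl) | ⟨g1, g2⟩
    · rw [vecF_s, vecF_2 hst, vecF_3 hst]; abel
    · rw [nx3, vecF_s, vecF_2 hst, vecF_3 hst]; abel
    · rw [nx3, vecF_s, vecF_2 hst, vecF_3 hst]; abel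
    · rw [vecF_t hst, vecF_1 hst, vecF_4 hst]; abel
    · rw [nx3, vecF_t hst, vecF_1 hst, vecF_4 hst]; abel
    · rw [nx3, vecF_t hst, vecF_1 hst, vecF_4 hst]; abel
    · rw [vecF_o _ g1 g2, vecF_o (x := nx x) _ g1 g2, vecF_o (x := nx (nx x)) _ g1 g2, E.closed]
  pos x := by
    have hst := D.glue_fst s
    rcases side_cases s (D.glue s) x with (rfl | rfl | rfl) | (rfl | rfl | rfl) | ⟨g1, g2⟩
    · rw [vecF_s, vecF_2 hst]
      simp only [dt, Prod.fst_neg, Prod.snd_neg, Prod.fst_add, Prod.snd_add] at h1 ⊢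
      linarith
    · rw [vecF_2 hst, vecF_3 hst]; exact h1
    · rw [nx3, vecF_s, vecF_3 hst]
      simp only [dt, Prod.fst_neg, Prod.snd_neg, Prod.fst_add, Prod.snd_add] at h1 ⊢
      linarith
    · rw [vecF_t hst, vecF_4 hst]
      simp only [dt, Prod.fst_neg, Prod.snd_neg, Prod.fst_add, Prod.snd_add] at h2 ⊢
      linarith
    · rw [vecF_1 hst, vecF_4 hst]; exact h2
    · rw [nx3, vecF_t hst, vecF_1 hst]
      simp only [dt, Prod.fst_neg, Prod.snd_neg, Prod.fst_add, Prod.snd_add] at h2 ⊢
      linarith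
    · rw [vecF_o _ g1 g2, vecF_o (x := nx x) _ g1 g2]; exact E.pos x
  parallel x := by
    have hst := D.glue_fst s
    have hdiag : vecF s (D.glue s) E.vec (D.glue s) = -vecF s (D.glue s) E.vec s := by
      rw [vecF_s, vecF_t hst]
      have e1 := E.closed s
      have e2 := E.closed (D.glue s)
      rw [hs] at e2
      have : E.vec (nx s) + E.vec (nx (nx s)) + (E.vec (nx (D.glue s)) +
          E.vec (nx (nx (D.glue s)))) = 0 := by
        have : E.vec s + E.vec (nx s) + E.vec (nx (nx s)) + (-E.vec s + E.vec (nx (D.glue s)) +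
          E.vec (nx (nx (D.glue s)))) = 0 := by rw [e1, e2, add_zero]
        rw [← this]; abel
      rw [neg_neg, neg_eq_iff_add_eq_zero, ← this]
      abel
    by_cases hx : x = s
    · subst hx
      refine ⟨1, one_pos, ?_⟩
      rw [h.glue_s, one_smul, hdiag]
    by_cases hx' : x = D.glue s
    · subst hx'
      refine ⟨1, one_pos, ?_⟩
      rw [h.symm'.glue_s, D.glue_glue, one_smul, hdiag, neg_neg]
    obtain ⟨y, h3, h4, rfl⟩ := turn_surj hst x hx hx'
    have hy : D.glue y ≠ s := by
      intro hh; apply h4; rw [← hh, D.glue_glue]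
    have hy' : D.glue y ≠ D.glue s := by
      intro hh; apply h3; rw [← D.glue_glue y, hh, D.glue_glue]
    refine ⟨E.r y, E.r_pos y, ?_⟩
    rw [h.2.1, vecF_turn hst _ hy hy', vecF_turn hst _ h3 h4, ← E.vec_glue, hg]

lemma isFlip_flipD {s : Side} {D D' : Surf} (h : IsFlip s D D') (E : Surf) (hg : E.glue = D.glue)
    (hs : E.vec (D.glue s) = -E.vec s)
    (h1 : 0 < dt (E.vec (nx (nx s))) (E.vec (nx (D.glue s))))
    (h2 : 0 < dt (E.vec (nx (nx (D.glue s)))) (E.vec (nx s))) :
    IsFlip s E (flipD h E hg hs h1 h2) := by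
  refine ⟨by rw [hg]; exact hs, ?_, ?_⟩
  · intro x
    rw [hg]
    exact h.2.1 x
  · intro x hx hx'
    rw [hg] at hx' ⊢
    exact vecF_turn (D.glue_fst s) _ hx hx'

/-- the factor by which the triangle of `t` is rescaled -/
noncomputable def kap (s t : Side) (v : Side → ℝ × ℝ) : ℝ :=
  -dt (v s) (v (nx t)) / dt (v t) (v (nx t))

/-- the vectors after rescaling -/
noncomputable def vecR (s t : Side) (v : Side → ℝ × ℝ) (x : Side) : ℝ × ℝ :=
  (if x.1 = t.1 then kap s t v else 1) • v x

lemma continuous_vecF (s t : Side) : Continuous (vecF s t) := by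
  refine continuous_pi fun x => ?_
  unfold vecF
  split_ifs <;> fun_prop

lemma continuous_kap (s t : Side) : Continuous (fun D : Surf => kap s t D.vec) := by
  unfold kap
  refine Continuous.div (continuous_dt (continuous_vec _) (continuous_vec _)).neg
    (continuous_dt (continuous_vec _) (continuous_vec _)) ?_
  intro D
  exact (D.pos t).ne'

lemma continuous_vecR (s t : Side) : Continuous (fun D : Surf => vecR s t D.vec) := by
  refine continuous_pi fun x => ?_
  unfold vecR
  split_ifs
  · exact (continuous_kap s t).smul (continuous_vec x)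
  · exact (continuous_vec x).const_smul (1 : ℝ)

/-- One move, openly. -/
lemma open_step {D D' : Surf} (h : Step D D') {U : Set Surf} (hU : IsOpen U) (hD' : D' ∈ U) :
    ∃ O : Set Surf, IsOpen O ∧ D ∈ O ∧ ∀ E ∈ O, ∃ E' ∈ U, ReflTransGen Step E E' := by
  rcases h with ⟨e, m, h⟩ | ⟨s, h⟩
  · have h' : IsRelabel e m D D' := h
    obtain ⟨h1, h2, h3, h4, h5⟩ := h
    refine ⟨relab e h1 m h2 h3 ⁻¹' U, hU.preimage (continuous_relab e h1 m h2 h3), ?_, ?_⟩
    · have : relab e h1 m h2 h3 D = D' := by
        apply Surf.ext'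
        · funext x
          obtain ⟨x, rfl⟩ := e.surjective x
          rw [h4]
          show e (D.glue (e.symm (e x))) = _
          rw [Equiv.symm_apply_apply]
        · funext x
          obtain ⟨x, rfl⟩ := e.surjective x
          rw [h5]
          show m (e.symm (e x)) • (D.vec (e.symm (e x))) = _
          rw [Equiv.symm_apply_apply]
      rw [Set.mem_preimage, this]
      exact hD'
    · intro E hE
      exact ⟨_, hE, ReflTransGen.single (Or.inl ⟨e, m, isRelabel_relab e h1 m h2 h3 E⟩)⟩
  · have h' : IsFlip s D D' := h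
    have hst := D.glue_fst s
    obtain ⟨W, hW, hWU⟩ := isOpen_induced_iff.1 hU
    have hcont : Continuous (fun E : Surf => (D'.glue, vecF s (D.glue s)
        (vecR s (D.glue s) E.vec))) :=
      continuous_const.prodMk ((continuous_vecF _ _).comp (continuous_vecR _ _))
    refine ⟨({E | E.glue = D.glue} ∩ {E | 0 < dt (E.vec (nx (nx s))) (E.vec (nx (D.glue s)))} ∩
      {E | 0 < dt (E.vec (nx (nx (D.glue s)))) (E.vec (nx s))}) ∩
      (fun E : Surf => (D'.glue, vecF s (D.glue s) (vecR s (D.glue s) E.vec))) ⁻¹' W, ?_, ?_, ?_⟩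
    · refine (((isOpen_glue _).inter ?_).inter ?_).inter (hW.preimage hcont)
      · exact isOpen_lt continuous_const (continuous_dt (continuous_vec _) (continuous_vec _))
      · exact isOpen_lt continuous_const (continuous_dt (continuous_vec _) (continuous_vec _))
    · refine ⟨⟨⟨rfl, h'.conv_i⟩, h'.conv_j⟩, ?_⟩
      have hk : kap s (D.glue s) D.vec = 1 := by
        have e1 : kap s (D.glue s) D.vec = D.r (D.glue s) := by
          unfold kap Surf.r
          rw [D.glue_glue]
        rw [e1, D.r_glue, h'.r_s, inv_one]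
      have hR : vecR s (D.glue s) D.vec = D.vec := by
        funext x
        unfold vecR
        rw [hk]
        simp
      have hF : vecF s (D.glue s) D.vec = D'.vec := by
        funext x
        by_cases hx : x = s
        · subst hx
          rw [vecF_s, h'.vec_s]
        by_cases hx' : x = D.glue s
        · subst hx'
          rw [vecF_t hst, h'.vec_t]
        obtain ⟨y, h3, h4, rfl⟩ := turn_surj hst x hx hx'
        rw [vecF_turn hst _ h3 h4, h'.2.2 y h3 h4]
      rw [Set.mem_preimage, hR, hF]
      rw [← hWU] at hD'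
      exact hD'
    · rintro E ⟨⟨⟨hg, h1⟩, h2⟩, hE⟩
      change E.glue = D.glue at hg
      change 0 < dt (E.vec (nx (nx s))) (E.vec (nx (D.glue s))) at h1
      change 0 < dt (E.vec (nx (nx (D.glue s)))) (E.vec (nx s)) at h2
      have hgt : E.glue (D.glue s) = s := by rw [hg, D.glue_glue]
      have hk : kap s (D.glue s) E.vec = E.r (D.glue s) := by
        unfold kap Surf.r
        rw [hgt]
      have hkpos : 0 < kap s (D.glue s) E.vec := by rw [hk]; exact E.r_pos _
      -- the rescaled surface
      have hm : ∀ x : Side, 0 < (fun x : Side => if x.1 = (D.glue s).1 then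
          kap s (D.glue s) E.vec else 1) x := by
        intro x
        beta_reduce
        split_ifs
        · exact hkpos
        · exact one_pos
      have hm' : ∀ x : Side, (fun x : Side => if x.1 = (D.glue s).1 then
          kap s (D.glue s) E.vec else 1) (nx x) = (fun x : Side => if x.1 = (D.glue s).1 then
          kap s (D.glue s) E.vec else 1) x := fun x => rfl
      set E1 : Surf := relab (Equiv.refl Side) (fun _ => rfl) _ hm hm' E with hE1
      have hv1 : E1.vec = vecR s (D.glue s) E.vec := rfl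
      have hg1 : E1.glue = D.glue := by
        rw [← hg]; rfl
      have hs1 : E1.vec (D.glue s) = -E1.vec s := by
        rw [hv1]
        unfold vecR
        rw [if_pos rfl, if_neg hst, one_smul, hk]
        have e1 := E.vec_glue (D.glue s)
        rw [hgt] at e1
        rw [e1, neg_neg]
      have c1 : 0 < dt (E1.vec (nx (nx s))) (E1.vec (nx (D.glue s))) := by
        rw [hv1]
        unfold vecR
        rw [if_neg (show ¬ (nx (nx s)).1 = (D.glue s).1 from hst),
          if_pos (show (nx (D.glue s)).1 = (D.glue s).1 from rfl), dt_smul_left, dt_smul_right,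
          one_mul]
        exact mul_pos hkpos h1
      have c2 : 0 < dt (E1.vec (nx (nx (D.glue s)))) (E1.vec (nx s)) := by
        rw [hv1]
        unfold vecR
        rw [if_neg (show ¬ (nx s).1 = (D.glue s).1 from hst),
          if_pos (show (nx (nx (D.glue s))).1 = (D.glue s).1 from rfl), dt_smul_left,
          dt_smul_right, one_mul]
        exact mul_pos hkpos h2
      refine ⟨flipD h' E1 hg1 hs1 c1 c2, ?_, ?_⟩
      · rw [← hWU]
        exact hE
      · have s1 : Step E E1 := Or.inl ⟨_, _, isRelabel_relab _ _ _ hm hm' E⟩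
        have s2 : Step E1 (flipD h' E1 hg1 hs1 c1 c2) :=
          Or.inr ⟨s, isFlip_flipD h' E1 hg1 hs1 c1 c2⟩
        exact (ReflTransGen.single s1).tail s2

lemma open_chain {D D' : Surf} (h : ReflTransGen Step D D') {U : Set Surf} (hU : IsOpen U)
    (hD' : D' ∈ U) :
    ∃ O : Set Surf, IsOpen O ∧ D ∈ O ∧ ∀ E ∈ O, ∃ E' ∈ U, ReflTransGen Step E E' := by
  induction h using ReflTransGen.head_induction_on with
  | refl => exact ⟨U, hU, hD', fun E hE => ⟨E, hE, ReflTransGen.refl⟩⟩
  | head h' _ ih =>
    obtain ⟨O, h1, h2, h3⟩ := ih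
    obtain ⟨O', h4, h5, h6⟩ := open_step h' h1 h2
    refine ⟨O', h4, h5, fun E hE => ?_⟩
    obtain ⟨E1, g1, g2⟩ := h6 E hE
    obtain ⟨E2, g3, g4⟩ := h3 E1 g1
    exact ⟨E2, g3, g2.trans g4⟩

/-- The saturation of an open set of surfaces is open. -/
lemma isOpen_sat {U : Set Surf} (hU : IsOpen U) :
    IsOpen {D : Surf | ∃ D' ∈ U, ReflTransGen Step D D'} := by
  rw [isOpen_iff_forall_mem_open]
  rintro D ⟨D', h1, h2⟩
  obtain ⟨O, h3, h4, h5⟩ := open_chain h2 hU h1
  exact ⟨O, fun E hE => h5 E hE, h3, h4⟩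

end Pool.Agent.N222.Dil
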