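import Pool.Agent.N222.Dil.Compare

/-!
# The moves can be undone by moves
-/

open scoped MatrixGroups

namespace Pool.Agent.N222.Dil

open Relation

/-- a relabelled surface -/
def relab (e : Side ≃ Side) (he : ∀ s, e (nx s) = nx (e s)) (m : Side → ℝ) (hm : ∀ s, 0 < m s)
    (hm' : ∀ s, m (nx s) = m s) (D : Surf) : Surf where
  glue x := e (D.glue (e.symm x))
  vec x := m (e.symm x) • D.vec (e.symm x)
  glue_glue s := by simp [D.glue_glue]
  glue_ne s h := by
    rw [← e.symm.injective.eq_iff, Equiv.symm_apply_apply] at h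
    exact D.glue_ne _ h
  one_vertex s t := by
    obtain ⟨n, hn⟩ := D.one_vertex (e.symm s) (e.symm t)
    refine ⟨n, ?_⟩
    have hsc : Function.Semiconj e (fun x => nx (D.glue x))
        (fun x => nx (e (D.glue (e.symm x)))) := by
      intro x
      simp [he]
    have := (hsc.iterate_right n) (e.symm s)
    rw [hn, Equiv.apply_symm_apply, Equiv.apply_symm_apply] at this
    exact this.symm
  closed s := by
    have he' : ∀ x, e.symm (nx x) = nx (e.symm x) := by
      intro x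
      rw [Equiv.symm_apply_eq, he, Equiv.apply_symm_apply]
    simp only [he', hm']
    rw [← smul_add, ← smul_add, D.closed, smul_zero]
  pos s := by
    have he' : ∀ x, e.symm (nx x) = nx (e.symm x) := by
      intro x
      rw [Equiv.symm_apply_eq, he, Equiv.apply_symm_apply]
    simp only [he', hm', dt_smul_left, dt_smul_right]
    exact mul_pos (hm _) (mul_pos (hm _) (D.pos _))
  parallel s := by
    refine ⟨m (D.glue (e.symm s)) * D.r (e.symm s) / m (e.symm s),
      div_pos (mul_pos (hm _) (D.r_pos _)) (hm _), ?_⟩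
    have := (hm (e.symm s)).ne'
    simp only [Equiv.symm_apply_apply]
    rw [D.vec_glue, smul_neg, smul_smul, smul_smul]
    congr 2
    field_simp

lemma isRelabel_relab (e : Side ≃ Side) (he : ∀ s, e (nx s) = nx (e s)) (m : Side → ℝ)
    (hm : ∀ s, 0 < m s) (hm' : ∀ s, m (nx s) = m s) (D : Surf) :
    IsRelabel e m D (relab e he m hm hm' D) :=
  ⟨he, hm, hm', fun s => by simp [relab], fun s => by simp [relab]⟩

/-- undoing a relabelling -/
lemma IsRelabel.inv {e : Side ≃ Side} {m : Side → ℝ} {D D' : Surf} (h : IsRelabel e m D D') :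
    IsRelabel e.symm (fun x => (m (e.symm x))⁻¹) D' D := by
  obtain ⟨h1, h2, h3, h4, h5⟩ := h
  refine ⟨?_, fun s => inv_pos.2 (h2 _), ?_, ?_, ?_⟩
  · intro s
    rw [Equiv.symm_apply_eq, h1, Equiv.apply_symm_apply]
  · intro s
    have : e.symm (nx s) = nx (e.symm s) := by
      rw [Equiv.symm_apply_eq, h1, Equiv.apply_symm_apply]
    beta_reduce
    rw [this, h3]
  · intro s
    obtain ⟨s, rfl⟩ := e.surjective s
    rw [h4, Equiv.symm_apply_apply, Equiv.symm_apply_apply]
  · intro s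
    obtain ⟨s, rfl⟩ := e.surjective s
    beta_reduce
    rw [h5, Equiv.symm_apply_apply, smul_smul, inv_mul_cancel₀ (h2 s).ne', one_smul]

lemma ZRel.inv {e : Side ≃ Side} {m : Side → ℝ} (hm : ∀ s, 0 < m s) {Z Z' : Side → ℝ}
    (h : ZRel e m Z Z') : ZRel e.symm (fun x => (m (e.symm x))⁻¹) Z' Z := by
  intro s
  obtain ⟨s, rfl⟩ := e.surjective s
  beta_reduce
  rw [Equiv.symm_apply_apply, h, ← mul_assoc, inv_mul_cancel₀ (hm s).ne', one_mul]

/-- the exchange of two triangles -/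
def sw (s t x : Side) : Side :=
  if x.1 = s.1 then (t.1, x.2 - s.2 + t.2) else if x.1 = t.1 then (s.1, x.2 - t.2 + s.2) else x

section sw
variable {s t : Side} (hst : s.1 ≠ t.1)

lemma sw_s : sw s t s = t := by simp [sw]

include hst in
lemma sw_t : sw s t t = s := by simp [sw, hst.symm]

lemma sw_nx (x : Side) : sw s t (nx x) = nx (sw s t x) := by
  have key : ∀ i j k : Fin 3, i + 1 - j + k = i - j + k + 1 := by decide
  obtain ⟨f, i⟩ := x
  by_cases h1 : f = s.1
  · subst h1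
    show (if s.1 = s.1 then _ else _) = nx (if s.1 = s.1 then _ else _)
    rw [if_pos rfl, if_pos rfl]
    exact Prod.ext rfl (key _ _ _)
  · by_cases h2 : f = t.1
    · subst h2
      show (if t.1 = s.1 then _ else if t.1 = t.1 then _ else _) =
        nx (if t.1 = s.1 then _ else if t.1 = t.1 then _ else _)
      rw [if_neg h1, if_pos rfl, if_neg h1, if_pos rfl]
      exact Prod.ext rfl (key _ _ _)
    · show (if f = s.1 then _ else if f = t.1 then _ else _) =
        nx (if f = s.1 then _ else if f = t.1 then _ else _)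
      rw [if_neg h1, if_neg h2, if_neg h1, if_neg h2]

include hst in
lemma sw_sw (x : Side) : sw s t (sw s t x) = x := by
  rcases side_cases s t x with (rfl | rfl | rfl) | (rfl | rfl | rfl) | ⟨h1, h2⟩
  · rw [sw_s, sw_t hst]
  · rw [sw_nx, sw_nx, sw_s, sw_t hst]
  · rw [sw_nx, sw_nx, sw_nx, sw_nx, sw_s, sw_t hst]
  · rw [sw_t hst, sw_s]
  · rw [sw_nx, sw_nx, sw_t hst, sw_s]
  · rw [sw_nx, sw_nx, sw_nx, sw_nx, sw_t hst, sw_s]
  · simp [sw, h1, h2]

include hst in
lemma turn_turn {x : Side} (h1 : x ≠ s) (h2 : x ≠ t) :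
    turn s t (turn s t x) = sw s t x := by
  rcases side_cases s t x with (rfl | rfl | rfl) | (rfl | rfl | rfl) | ⟨h1, h2⟩
  · exact absurd rfl h1
  · rw [turn_1, turn_2 hst, sw_nx, sw_s]
  · rw [turn_4 hst, turn_1, sw_nx, sw_nx, sw_s]
  · exact absurd rfl h2
  · rw [turn_3 hst, turn_4 hst, sw_nx, sw_t hst]
  · rw [turn_2 hst, turn_3 hst, sw_nx, sw_nx, sw_t hst]
  · rw [turn_7 h1 h2, turn_7 h1 h2]
    simp [sw, h1, h2]

include hst in
lemma turn_surj (x : Side) (h1 : x ≠ s) (h2 : x ≠ t) :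
    ∃ y, y ≠ s ∧ y ≠ t ∧ turn s t y = x := by
  rcases side_cases s t x with (rfl | rfl | rfl) | (rfl | rfl | rfl) | ⟨h1, h2⟩
  · exact absurd rfl h1
  · exact ⟨nx (nx s), nx2_ne _, ne_of_fst hst rfl rfl, turn_4 hst⟩
  · exact ⟨nx t, ne_of_fst hst.symm rfl rfl, nx_ne _, turn_3 hst⟩
  · exact absurd rfl h2
  · exact ⟨nx (nx t), ne_of_fst hst.symm rfl rfl, nx2_ne _, turn_2 hst⟩
  · exact ⟨nx s, nx_ne _, ne_of_fst hst rfl rfl, turn_1⟩
  · exact ⟨x, by rintro rfl; exact h1 rfl, by rintro rfl; exact h2 rfl, turn_7 h1 h2⟩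

end sw

/-- the exchange as a permutation -/
def swE (s t : Side) (hst : s.1 ≠ t.1) : Side ≃ Side where
  toFun := sw s t
  invFun := sw s t
  left_inv := sw_sw hst
  right_inv := sw_sw hst

/-- the surface with two triangles exchanged -/
def swD (s t : Side) (hst : s.1 ≠ t.1) (D : Surf) : Surf :=
  relab (swE s t hst) sw_nx (fun _ => 1) (fun _ => one_pos) (fun _ => rfl) D

section
variable {s : Side} {D D' : Surf}

lemma swD_glue (t : Side) (hst : s.1 ≠ t.1) (x : Side) :
    (swD s t hst D).glue x = sw s t (D.glue (sw s t x)) := rfl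

lemma swD_vec (t : Side) (hst : s.1 ≠ t.1) (x : Side) :
    (swD s t hst D).vec x = D.vec (sw s t x) := by
  show (1 : ℝ) • D.vec (sw s t x) = _
  rw [one_smul]

lemma IsFlip.back (h : IsFlip s D D') :
    IsFlip s D' (swD s (D.glue s) (D.glue_fst s) D) := by
  have hst := D.glue_fst s
  unfold IsFlip
  rw [h.glue_s]
  refine ⟨?_, ?_, ?_⟩
  · have := D'.vec_glue s
    rwa [h.glue_s, h.r_s', one_smul] at this
  · intro x
    rw [swD_glue]
    by_cases h1 : x = s
    · subst h1
      rw [turn_5 hst, sw_s, D.glue_glue, sw_s, h.glue_s, turn_6 hst]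
    by_cases h2 : x = D.glue s
    · subst h2
      rw [turn_6 hst, sw_t hst, sw_t hst, h.symm'.glue_s, D.glue_glue, turn_5 hst]
    obtain ⟨y, h3, h4, rfl⟩ := turn_surj hst x h1 h2
    have hy : D.glue y ≠ s := by
      intro hh; apply h4; rw [← hh, D.glue_glue]
    have hy' : D.glue y ≠ D.glue s := by
      intro hh; apply h3; rw [← D.glue_glue y, hh, D.glue_glue]
    rw [turn_turn hst h3 h4, sw_sw hst, h.2.1, turn_turn hst hy hy']
  · intro x h1 h2
    obtain ⟨y, h3, h4, rfl⟩ := turn_surj hst x h1 h2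
    rw [turn_turn hst h3 h4, swD_vec, sw_sw hst, h.2.2 y h3 h4]

lemma isRelabel_sw (t : Side) (hst : s.1 ≠ t.1) :
    IsRelabel (swE s t hst) (fun _ => 1) (swD s t hst D) D := by
  refine ⟨sw_nx, fun _ => one_pos, fun _ => rfl, ?_, ?_⟩
  · intro x
    show D.glue (sw s t x) = sw s t ((swD s t hst D).glue x)
    rw [swD_glue, sw_sw hst]
  · intro x
    show D.vec (sw s t x) = (1 : ℝ) • (swD s t hst D).vec x
    rw [swD_vec, one_smul]

lemma ZFlip.back (h : IsFlip s D D') {Z Z' : Side → ℝ} (hZ : ZOK D Z)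
    (hf : ZFlip s (D.glue s) Z Z') :
    ZFlip s (D'.glue s) Z' (fun x => Z (sw s (D.glue s) x)) := by
  have hst := D.glue_fst s
  have zt : Z (D.glue s) = Z (nx s) := by rw [hZ.glue, h.r_s, one_mul]
  have zs : Z s = Z (nx (D.glue s)) := by
    have := hZ.glue (D.glue s)
    rwa [D.glue_glue, D.r_glue, h.r_s, inv_one, one_mul] at this
  rw [h.glue_s]
  refine ⟨?_, ?_, ?_⟩
  · intro x h1 h2
    obtain ⟨y, h3, h4, rfl⟩ := turn_surj hst x h1 h2
    beta_reduce
    rw [turn_turn hst h3 h4, sw_sw hst, hf.1 y h3 h4]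
  · beta_reduce
    rw [sw_s, hf.z_1 hst, zt]
  · beta_reduce
    rw [sw_t hst, hf.z_3 hst, zs]

end

/-- the moves -/
def Step (D D' : Surf) : Prop := Relabel D D' ∨ Flip D D'

lemma rev_step {D D' : Surf} (h : Step D D') : ReflTransGen Step D' D := by
  rcases h with ⟨e, m, h⟩ | ⟨s, h⟩
  · exact ReflTransGen.single (Or.inl ⟨_, _, IsRelabel.inv h⟩)
  · have h' : IsFlip s D D' := h
    have e1 : Step D' (swD s (D.glue s) (D.glue_fst s) D) := Or.inr ⟨s, h'.back⟩
    have e2 : Step (swD s (D.glue s) (D.glue_fst s) D) D :=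
      Or.inl ⟨_, _, isRelabel_sw _ (D.glue_fst s)⟩
    exact (ReflTransGen.single e1).tail e2

lemma rev_stepZ {x y : Surf × (Side → ℝ)} (h : StepZ x y) (hz : ZOK x.1 x.2) :
    ReflTransGen StepZ y x := by
  rcases h with ⟨e, m, h, h'⟩ | ⟨s, h, h'⟩
  · exact ReflTransGen.single (Or.inl ⟨_, _, h.inv, h'.inv h.2.1⟩)
  · refine (ReflTransGen.single (b := (swD s (x.1.glue s) (x.1.glue_fst s) x.1,
      fun z => x.2 (sw s (x.1.glue s) z))) (Or.inr ⟨s, h.back, h'.back h hz⟩)).tail
      (Or.inl ⟨_, _, isRelabel_sw _ (x.1.glue_fst s), ?_⟩)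
    intro z
    show x.2 (sw s (x.1.glue s) z) = 1 * x.2 (sw s (x.1.glue s) z)
    rw [one_mul]

lemma lift_step {D D' : Surf} (h : Step D D') (Z : Side → ℝ) : ∃ Z', StepZ (D, Z) (D', Z') := by
  rcases h with ⟨e, m, h⟩ | ⟨s, h⟩
  · refine ⟨fun x => m (e.symm x) * Z (e.symm x), Or.inl ⟨e, m, h, ?_⟩⟩
    intro x
    show m (e.symm (e x)) * Z (e.symm (e x)) = _
    rw [Equiv.symm_apply_apply]
  · have h' : IsFlip s D D' := h
    have hst := D.glue_fst s
    refine ⟨fun x => if x = s then Z (nx (nx (D.glue s))) else if x = D.glue s then Z (nx (nx s))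
      else Z (sw s (D.glue s) (turn s (D.glue s) x)), Or.inr ⟨s, h', ?_, ?_, ?_⟩⟩
    · intro x hx hx'
      have e1 : turn s (D.glue s) x ≠ s := by
        rcases side_cases s (D.glue s) x with (rfl | rfl | rfl) | (rfl | rfl | rfl) | ⟨g1, g2⟩
        · exact absurd rfl hx
        · rw [turn_1]; exact ne_of_fst hst.symm rfl rfl
        · rw [turn_4 hst]; exact nx_ne _
        · exact absurd rfl hx'
        · rw [turn_3 hst]; exact nx2_ne _
        · rw [turn_2 hst]; exact ne_of_fst hst.symm rfl rfl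
        · rw [turn_7 g1 g2]; exact hx
      have e2 : turn s (D.glue s) x ≠ D.glue s := by
        rcases side_cases s (D.glue s) x with (rfl | rfl | rfl) | (rfl | rfl | rfl) | ⟨g1, g2⟩
        · exact absurd rfl hx
        · rw [turn_1]; exact nx2_ne _
        · rw [turn_4 hst]; exact ne_of_fst hst rfl rfl
        · exact absurd rfl hx'
        · rw [turn_3 hst]; exact ne_of_fst hst rfl rfl
        · rw [turn_2 hst]; exact nx_ne _
        · rw [turn_7 g1 g2]; exact hx'
      show (if _ then _ else if _ then _ else _) = _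
      rw [if_neg e1, if_neg e2, turn_turn hst hx hx', sw_sw hst]
    · simp
    · show (if _ then _ else if _ then _ else _) = _
      rw [if_neg (D.glue_ne s), if_pos rfl]

lemma rev_chain {D D' : Surf} (h : ReflTransGen Step D D') : ReflTransGen Step D' D := by
  induction h with
  | refl => exact ReflTransGen.refl
  | tail _ h ih => exact (rev_step h).trans ih

lemma chain_of_eqvGen {D D' : Surf} (h : EqvGen Step D D') : ReflTransGen Step D D' := by
  induction h with
  | rel _ _ h => exact ReflTransGen.single h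
  | refl _ => exact ReflTransGen.refl
  | symm _ _ _ ih => exact rev_chain ih
  | trans _ _ _ _ _ ih1 ih2 => exact ih1.trans ih2

/-- lifting a chain of moves to vertex scales, with the way back -/
lemma lift_chain {D D' : Surf} (h : ReflTransGen Step D D') {Z : Side → ℝ} (hZ : ZOK D Z) :
    ∃ Z', ZOK D' Z' ∧ ReflTransGen StepZ (D, Z) (D', Z') ∧
      ReflTransGen StepZ (D', Z') (D, Z) := by
  induction h with
  | refl => exact ⟨Z, hZ, ReflTransGen.refl, ReflTransGen.refl⟩
  | tail _ h ih =>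
    obtain ⟨Z', h1, h2, h3⟩ := ih
    obtain ⟨Z'', h4⟩ := lift_step h Z'
    exact ⟨Z'', h4.zok h1, h2.tail h4, (rev_stepZ h4 h1).trans h3⟩

lemma chain_zok {x y : Surf × (Side → ℝ)} (h : ReflTransGen StepZ x y) (hz : ZOK x.1 x.2) :
    ZOK y.1 y.2 := by
  induction h with
  | refl => exact hz
  | tail _ h ih => exact h.zok ih

lemma chain_kk {x y : Surf × (Side → ℝ)} (h : ReflTransGen StepZ x y) (hz : ZOK x.1 x.2)
    {u : ℝ × ℝ} {a b : ℝ} (ha : 0 < a) (hb : 0 < b) (hu : u ≠ 0) (hk : KK x.1 x.2 u a b) :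
    KK y.1 y.2 u a b := by
  induction h with
  | refl => exact hk
  | tail h' h ih => exact h.kk (chain_zok h' hz) ha hb hu ih

lemma chain_pair {u₁ u₂ : ℝ × ℝ} {a₁ b₁ a₂ b₂ : ℝ} (ha₁ : 0 < a₁) (hb₁ : 0 < b₁) (hu₁ : u₁ ≠ 0)
    (ha₂ : 0 < a₂) (hb₂ : 0 < b₂) (hu₂ : u₂ ≠ 0) {x y : Surf × (Side → ℝ)}
    (h : ReflTransGen StepZ x y)
    (hp : Pair x.1 x.2 u₁ a₁ b₁ u₂ a₂ b₂) : Pair y.1 y.2 u₁ a₁ b₁ u₂ a₂ b₂ := by
  induction h with
  | refl => exact hp
  | tail _ h ih => exact h.pair ha₁ hb₁ hu₁ ha₂ hb₂ hu₂ ih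

end Pool.Agent.N222.Dil
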