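import Pool.Agent.N222.Dil.Split

/-!
# The slopes of a surface glued from two one-holed dilation tori
-/

open scoped MatrixGroups

namespace Pool.Agent.N222.Dil

open Relation

/-- the slope on the left half -/
noncomputable def slA (D : Surf) : ℝ :=
  (D.r (1, 2) - D.r (1, 1)) / dt (D.vec (0, 0)) (D.vec (0, 1))

/-- the slope on the right half -/
noncomputable def slB (D : Surf) : ℝ :=
  D.r (0, 0) * (D.r (0, 0) * D.r (1, 1) / D.r (4, 1)) * (D.r (4, 2) - D.r (4, 1)) /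
    dt (D.vec (3, 0)) (D.vec (3, 1))

/-- the explicit vertex scale -/
noncomputable def ZZ (D : Surf) (s : Side) : ℝ :=
  (![![D.r (1, 1), D.r (1, 1), D.r (1, 2)],
    ![D.r (0, 2) * D.r (1, 1), D.r (0, 2) * D.r (1, 2), D.r (0, 1)],
    ![D.r (0, 2) * D.r (1, 2) * D.r (1, 1), D.r (1, 2) * D.r (0, 1), D.r (0, 1) * D.r (1, 1)],
    ![D.r (0, 0) * D.r (1, 1) / D.r (4, 1) * D.r (4, 1),
      D.r (0, 0) * D.r (1, 1) / D.r (4, 1) * D.r (4, 1),
      D.r (0, 0) * D.r (1, 1) / D.r (4, 1) * D.r (4, 2)],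
    ![D.r (0, 0) * D.r (1, 1) / D.r (4, 1) * (D.r (3, 2) * D.r (4, 1)),
      D.r (0, 0) * D.r (1, 1) / D.r (4, 1) * (D.r (3, 2) * D.r (4, 2)),
      D.r (0, 0) * D.r (1, 1) / D.r (4, 1) * D.r (3, 1)],
    ![D.r (0, 0) * D.r (1, 1) / D.r (4, 1) * (D.r (3, 2) * D.r (4, 2) * D.r (4, 1)),
      D.r (0, 0) * D.r (1, 1) / D.r (4, 1) * (D.r (4, 2) * D.r (3, 1)),
      D.r (0, 0) * D.r (1, 1) / D.r (4, 1) * (D.r (3, 1) * D.r (4, 1))]] :
    Fin 6 → Fin 3 → ℝ) s.1 s.2

lemma ZZ_zok {D : Surf} (h : D.glue = tau) : ZOK D (ZZ D) := by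
  have rg : ∀ s t, tau s = t → D.r t = (D.r s)⁻¹ := by
    intro s t hst
    rw [← hst, ← h, D.r_glue]
  have p := D.r_pos
  have g10 := rg (0, 2) (1, 0) rfl
  have g20 := rg (1, 2) (2, 0) rfl
  have g21 := rg (0, 1) (2, 1) rfl
  have g22 := rg (1, 1) (2, 2) rfl
  have g30 := rg (0, 0) (3, 0) rfl
  have g40 := rg (3, 2) (4, 0) rfl
  have g50 := rg (4, 2) (5, 0) rfl
  have g51 := rg (3, 1) (5, 1) rfl
  have g52 := rg (4, 1) (5, 2) rfl
  have n00 := (p (0, 0)).ne'
  have n01 := (p (0, 1)).ne'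
  have n02 := (p (0, 2)).ne'
  have n11 := (p (1, 1)).ne'
  have n12 := (p (1, 2)).ne'
  have n31 := (p (3, 1)).ne'
  have n32 := (p (3, 2)).ne'
  have n41 := (p (4, 1)).ne'
  have n42 := (p (4, 2)).ne'
  constructor
  · rintro ⟨f, i⟩
    have := p (0, 0)
    have := p (0, 1)
    have := p (0, 2)
    have := p (1, 1)
    have := p (1, 2)
    have := p (3, 1)
    have := p (3, 2)
    have := p (4, 1)
    have := p (4, 2)
    fin_cases f <;> fin_cases i <;> simp [ZZ] <;> positivity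
  · rw [h]
    rintro ⟨f, i⟩
    fin_cases f <;> fin_cases i <;>
      simp [ZZ, tau, nx, g10, g20, g21, g22, g30, g40, g50, g51, g52] <;> field_simp

/-- the heights of the sides of a one-holed torus -/
lemma half_aux {A κ p q r1 r2 h00 h01 h02 h10 h11 h12 h20 h21 h22 : ℝ}
    (c0 : h00 + h01 + h02 = 0) (c1 : h10 + h11 + h12 = 0) (c2 : h20 + h21 + h22 = 0)
    (z : h00 = 0) (g10 : h10 = -(p * h02)) (g20 : h20 = -(q * h12)) (g21 : h21 = -(r1 * h01))
    (g22 : h22 = -(r2 * h11)) (hx : h01 ≠ 0) (hA : A * h01 = κ * (q - r2)) :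
    A * h00 = 0 ∧ A * h02 = κ * (r2 - q) ∧ A * h10 = κ * (p * q - p * r2) ∧
      A * h11 = κ * (r1 - p * q) ∧ A * h12 = κ * (p * r2 - r1) ∧
      A * h20 = κ * (q * r1 - p * q * r2) ∧ A * h21 = κ * (r1 * r2 - q * r1) ∧
      A * h22 = κ * (p * q * r2 - r1 * r2) := by
  subst z
  have e02 : h02 = -h01 := by linarith
  subst e02
  have e10 : h10 = p * h01 := by rw [g10]; ring
  subst e10
  have e12 : h12 = -(p * h01) - h11 := by linarith
  subst e12
  subst g20 g21 g22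
  have key : A * h11 = κ * (r1 - p * q) := by
    apply mul_left_cancel₀ hx
    linear_combination (h11) * hA + κ * c2
  refine ⟨by ring, by linear_combination -hA, by linear_combination p * hA, key, ?_, ?_, ?_, ?_⟩
  · linear_combination -p * hA - key
  · linear_combination q * (p * hA + key)
  · linear_combination -r1 * hA
  · linear_combination -r2 * key

lemma slopes_split {D : Surf} (h : D.glue = tau) (ha : 0 < slA D) (hb : 0 < slB D) :
    SplitZ D (ZZ D) (D.vec (0, 0)) (slA D) (slB D) := by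
  have g : ∀ s t, tau s = t → dt (D.vec (0, 0)) (D.vec t) =
      -(D.r s * dt (D.vec (0, 0)) (D.vec s)) := by
    intro s t hst
    rw [← hst, ← h, D.vec_glue, dt_neg_right, dt_smul_right]
  have c : ∀ s, dt (D.vec (0, 0)) (D.vec s) + dt (D.vec (0, 0)) (D.vec (nx s)) +
      dt (D.vec (0, 0)) (D.vec (nx (nx s))) = 0 := by
    intro s
    rw [← dt_add_right, ← dt_add_right, D.closed, dt_zero_right]
  have x0 := D.pos (0, 0)
  have x3 := D.pos (3, 0)
  have p00 := D.r_pos (0, 0)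
  have g30 : D.vec (3, 0) = -(D.r (0, 0) • D.vec (0, 0)) := by
    have := D.vec_glue (0, 0)
    rw [h] at this
    exact this
  have x3' : dt (D.vec (3, 0)) (D.vec (3, 1)) = -(D.r (0, 0) * dt (D.vec (0, 0)) (D.vec (3, 1))) := by
    rw [g30, dt_neg_left, dt_smul_left]
  obtain ⟨l1, l2, l3, l4, l5, l6, l7, l8⟩ := half_aux (A := slA D) (κ := 1) (c (0, 0)) (c (1, 0))
    (c (2, 0)) (dt_self _) (g (0, 2) (1, 0) rfl) (g (1, 2) (2, 0) rfl) (g (0, 1) (2, 1) rfl)
    (g (1, 1) (2, 2) rfl) x0.ne' (by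
      unfold slA
      have := x0.ne'
      change _ / dt (D.vec (0, 0)) (D.vec (nx (0, 0))) * _ = _
      field_simp)
  have l0 : slA D * dt (D.vec (0, 0)) (D.vec (nx (0, 0))) = D.r (1, 2) - D.r (1, 1) := by
    unfold slA
    have := x0.ne'
    change _ / dt (D.vec (0, 0)) (D.vec (nx (0, 0))) * _ = _
    field_simp
  have m0 : -slB D * dt (D.vec (0, 0)) (D.vec (nx (3, 0))) =
      D.r (0, 0) * D.r (1, 1) / D.r (4, 1) * (D.r (4, 2) - D.r (4, 1)) := by
    unfold slB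
    rw [x3']
    have e : dt (D.vec (0, 0)) (D.vec (3, 1)) ≠ 0 := by
      intro h0
      rw [h0, mul_zero, neg_zero] at x3'
      exact x3.ne' x3'
    have := p00.ne'
    have := (D.r_pos (4, 1)).ne'
    change -(_ / -(D.r (0, 0) * dt (D.vec (0, 0)) (D.vec (3, 1)))) *
      dt (D.vec (0, 0)) (D.vec (3, 1)) = _
    field_simp
  have e31 : dt (D.vec (0, 0)) (D.vec (nx (3, 0))) ≠ 0 := by
    intro h0
    have h0' : dt (D.vec (0, 0)) (D.vec (3, 1)) = 0 := h0
    rw [h0', mul_zero, neg_zero] at x3'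
    exact x3.ne' x3'
  have z3 : dt (D.vec (0, 0)) (D.vec (3, 0)) = 0 := by
    rw [g30, dt_neg_right, dt_smul_right, dt_self, mul_zero, neg_zero]
  obtain ⟨m1, m2, m3, m4, m5, m6, m7, m8⟩ := half_aux (A := -slB D)
    (κ := D.r (0, 0) * D.r (1, 1) / D.r (4, 1)) (c (3, 0)) (c (4, 0))
    (c (5, 0)) z3 (g (3, 2) (4, 0) rfl) (g (4, 2) (5, 0) rfl) (g (3, 1) (5, 1) rfl)
    (g (4, 1) (5, 2) rfl) e31 m0
  refine ⟨h, rfl, ha, hb, ZZ_zok h, ?_, ?_⟩
  · rintro ⟨f, i⟩ hs
    fin_cases f <;> fin_cases i <;> first | (exfalso; revert hs; decide) | skip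
    · change D.r (1, 1) - D.r (1, 1) = _
      rw [sub_self]; exact l1.symm
    · exact l0.symm
    · change D.r (1, 1) - D.r (1, 2) = _
      rw [one_mul] at l2
      exact l2.symm
    · change D.r (0, 2) * D.r (1, 2) - D.r (0, 2) * D.r (1, 1) = _
      rw [one_mul] at l3
      exact l3.symm
    · change D.r (0, 1) - D.r (0, 2) * D.r (1, 2) = _
      rw [one_mul] at l4
      exact l4.symm
    · change D.r (0, 2) * D.r (1, 1) - D.r (0, 1) = _
      rw [one_mul] at l5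
      exact l5.symm
    · change D.r (1, 2) * D.r (0, 1) - D.r (0, 2) * D.r (1, 2) * D.r (1, 1) = _
      rw [one_mul] at l6
      exact l6.symm
    · change D.r (0, 1) * D.r (1, 1) - D.r (1, 2) * D.r (0, 1) = _
      rw [one_mul] at l7
      exact l7.symm
    · change D.r (0, 2) * D.r (1, 2) * D.r (1, 1) - D.r (0, 1) * D.r (1, 1) = _
      rw [one_mul] at l8
      exact l8.symm
  · rintro ⟨f, i⟩ hs
    rw [← neg_mul]
    fin_cases f <;> fin_cases i <;> first | (exfalso; revert hs; decide) | skip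
    · change _ * D.r (4, 1) - _ * D.r (4, 1) = _
      rw [sub_self]; exact m1.symm
    · change _ * D.r (4, 2) - _ * D.r (4, 1) = _
      rw [← mul_sub]
      exact m0.symm
    · change _ * D.r (4, 1) - _ * D.r (4, 2) = _
      rw [← mul_sub]
      exact m2.symm
    · change _ * (D.r (3, 2) * D.r (4, 2)) - _ * (D.r (3, 2) * D.r (4, 1)) = _
      rw [← mul_sub]
      exact m3.symm
    · change _ * (D.r (3, 1)) - _ * (D.r (3, 2) * D.r (4, 2)) = _
      rw [← mul_sub]
      exact m4.symm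
    · change _ * (D.r (3, 2) * D.r (4, 1)) - _ * D.r (3, 1) = _
      rw [← mul_sub]
      exact m5.symm
    · change _ * (D.r (4, 2) * D.r (3, 1)) - _ * (D.r (3, 2) * D.r (4, 2) * D.r (4, 1)) = _
      rw [← mul_sub]
      exact m6.symm
    · change _ * (D.r (3, 1) * D.r (4, 1)) - _ * (D.r (4, 2) * D.r (3, 1)) = _
      rw [← mul_sub]
      exact m7.symm
    · change _ * (D.r (3, 2) * D.r (4, 2) * D.r (4, 1)) - _ * (D.r (3, 1) * D.r (4, 1)) = _
      rw [← mul_sub]
      exact m8.symm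

end Pool.Agent.N222.Dil
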