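import Pool.Agent.N222.Dil.Open

/-!
# Surfaces glued from two one-holed dilation tori
-/

open scoped MatrixGroups

namespace Pool.Agent.N222.Dil

open Relation

/-- the gluing of two one-holed tori (triangles `0, 1, 2` and `3, 4, 5`) along one side -/
def tau (s : Side) : Side :=
  (![![(3, 0), (2, 1), (1, 0)], ![(0, 2), (2, 2), (2, 0)], ![(1, 2), (0, 1), (1, 1)],
    ![(0, 0), (5, 1), (4, 0)], ![(3, 2), (5, 2), (5, 0)], ![(4, 2), (3, 1), (4, 1)]] :
    Fin 6 → Fin 3 → Side) s.1 s.2

lemma tau_tau : ∀ s, tau (tau s) = s := by decide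

lemma tau_ne : ∀ s, tau s ≠ s := by decide

lemma tau_left : ∀ s : Side, s.1 < 3 → s ≠ (0, 0) → (tau s).1 < 3 := by decide

lemma tau_right : ∀ s : Side, ¬ s.1 < 3 → s ≠ (3, 0) → ¬ (tau s).1 < 3 := by decide

/-- `Z` has the gradient `a · dt u` on the left half and `-b · dt u` on the right half -/
structure SplitZ (D : Surf) (Z : Side → ℝ) (u : ℝ × ℝ) (a b : ℝ) : Prop where
  glue : D.glue = tau
  hu : u = D.vec (0, 0)
  ha : 0 < a
  hb : 0 < b
  zok : ZOK D Z
  left : ∀ s : Side, s.1 < 3 → Z (nx s) - Z s = a * dt u (D.vec s)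
  right : ∀ s : Side, ¬ s.1 < 3 → Z (nx s) - Z s = -(b * dt u (D.vec s))

lemma SplitZ.u_ne {D : Surf} {Z : Side → ℝ} {u : ℝ × ℝ} {a b : ℝ} (h : SplitZ D Z u a b) :
    u ≠ 0 := by
  rw [h.hu]; exact D.vec_ne _

lemma SplitZ.smul {D : Surf} {Z : Side → ℝ} {u : ℝ × ℝ} {a b : ℝ} (h : SplitZ D Z u a b)
    {k : ℝ} (hk : 0 < k) : SplitZ D (fun s => k * Z s) u (k * a) (k * b) := by
  refine ⟨h.glue, h.hu, mul_pos hk h.ha, mul_pos hk h.hb, h.zok.smul hk, ?_, ?_⟩
  · intro s hs
    have := h.left s hs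
    rw [← mul_sub, this, mul_assoc]
  · intro s hs
    have := h.right s hs
    rw [← mul_sub, this]; ring

/-- a V-shaped function with values on the rising line at three points -/
lemma exists_d (a b h k z : ℝ) : ∃ d : ℝ, z = V a b z d 0 ∧ z + a * h = V a b z d h ∧
    z + a * k = V a b z d k := by
  refine ⟨min z (min (z + a * h + b * h) (z + a * k + b * k)), ?_, ?_, ?_⟩ <;> unfold V
  · rw [max_eq_left]
    · ring
    · have := min_le_left z (min (z + a * h + b * h) (z + a * k + b * k))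
      linarith
  · rw [max_eq_left]
    · ring
    · have := (min_le_right z (min (z + a * h + b * h) (z + a * k + b * k))).trans
        (min_le_left _ _)
      linarith
  · rw [max_eq_left]
    · ring
    · have := (min_le_right z (min (z + a * h + b * h) (z + a * k + b * k))).trans
        (min_le_right _ _)
      linarith

lemma exists_c (a b h k z : ℝ) : ∃ c : ℝ, z = V a b c z 0 ∧ z - b * h = V a b c z h ∧
    z - b * k = V a b c z k := by
  obtain ⟨c, h1, h2, h3⟩ := exists_d b a (-h) (-k) z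
  refine ⟨c, ?_, ?_, ?_⟩
  · rw [V_refl, neg_zero]; exact h1
  · rw [V_refl, ← h2]; ring
  · rw [V_refl, ← h3]; ring

lemma SplitZ.kk {D : Surf} {Z : Side → ℝ} {u : ℝ × ℝ} {a b : ℝ} (h : SplitZ D Z u a b) :
    KK D Z u a b := by
  constructor
  · intro s
    by_cases hs : s.1 < 3
    · obtain ⟨d, h1, h2, h3⟩ := exists_d a b (dt u (D.vec s)) (-(dt u (D.vec (nx (nx s))))) (Z s)
      refine ⟨Z s, d, h1, ?_, ?_⟩
      · rw [← h2, ← h.left s hs]; ring
      · rw [← h3]
        have := h.left (nx (nx s)) hs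
        rw [nx3] at this
        linarith
    · obtain ⟨c, h1, h2, h3⟩ := exists_c a b (dt u (D.vec s)) (-(dt u (D.vec (nx (nx s))))) (Z s)
      refine ⟨c, Z s, h1, ?_, ?_⟩
      · rw [← h2]
        have := h.right s hs
        linarith
      · rw [← h3]
        have := h.right (nx (nx s)) hs
        rw [nx3] at this
        linarith
  · -- heights of the opposite corners of `s` and `glue s`
    have tl : ∀ s : Side, s.1 < 3 → 0 ≤ -(dt u (D.vec (nx (nx s)))) → Tight D Z u a b s := by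
      intro s hs h0
      unfold Tight
      rw [tg_pos h.ha h.hb h0]
      have := h.left (nx (nx s)) hs
      rw [nx3] at this
      linarith
    have tr : ∀ s : Side, ¬ s.1 < 3 → -(dt u (D.vec (nx (nx s)))) ≤ 0 → Tight D Z u a b s := by
      intro s hs h0
      unfold Tight
      rw [tg_neg h.ha h.hb h0]
      have := h.right (nx (nx s)) hs
      rw [nx3] at this
      linarith
    have opp : ∀ s : Side, dt u (D.vec s) = 0 → -(dt u (D.vec (nx (nx s)))) < 0 →
        0 ≤ -(dt u (D.vec (nx (nx (D.glue s))))) := by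
      intro s h0 h1
      rw [dt_nx2, h0, zero_add] at h1
      have h0' : dt u (D.vec (D.glue s)) = 0 := by
        rw [D.vec_glue, dt_neg_right, dt_smul_right, h0, mul_zero, neg_zero]
      rw [dt_nx2, h0', zero_add]
      have p1 := D.pos (D.glue s)
      rw [D.vec_glue s, dt_neg_left, dt_smul_left, ← mul_neg, ← dt_neg_right] at p1
      have p2 := pos_of_mul_pos_right p1 (D.r_pos s).le
      have := same_side h.u_ne h0 (D.pos s) p2
      rw [dt_neg_right] at this
      nlinarith
    have opp' : ∀ s : Side, dt u (D.vec s) = 0 → 0 < -(dt u (D.vec (nx (nx s)))) →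
        -(dt u (D.vec (nx (nx (D.glue s))))) ≤ 0 := by
      intro s h0 h1
      rw [dt_nx2, h0, zero_add] at h1
      have h0' : dt u (D.vec (D.glue s)) = 0 := by
        rw [D.vec_glue, dt_neg_right, dt_smul_right, h0, mul_zero, neg_zero]
      rw [dt_nx2, h0', zero_add]
      have p1 := D.pos (D.glue s)
      rw [D.vec_glue s, dt_neg_left, dt_smul_left, ← mul_neg, ← dt_neg_right] at p1
      have p2 := pos_of_mul_pos_right p1 (D.r_pos s).le
      have := same_side h.u_ne h0 (D.pos s) p2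
      rw [dt_neg_right] at this
      nlinarith
    have t0 : Tight D Z u a b (0, 0) := by
      refine tl _ (by decide) ?_
      rw [dt_nx2, h.hu, dt_self, zero_add]
      exact (D.pos (0, 0)).le
    intro s h0
    by_cases e0 : s = (0, 0)
    · left; rw [e0]; exact t0
    by_cases e3 : s = (3, 0)
    · right
      rw [e3, h.glue]
      exact t0
    by_cases hs : s.1 < 3
    · rcases le_or_gt 0 (-(dt u (D.vec (nx (nx s))))) with h1 | h1
      · exact Or.inl (tl s hs h1)
      · refine Or.inr (tl _ ?_ (opp s h0 h1))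
        rw [h.glue]
        exact tau_left s hs e0
    · rcases le_or_gt (-(dt u (D.vec (nx (nx s))))) 0 with h1 | h1
      · exact Or.inl (tr s hs h1)
      · refine Or.inr (tr _ ?_ (opp' s h0 h1))
        rw [h.glue]
        exact tau_right s hs e3

lemma exists_hi {h k p q : ℝ} (hp : 0 ≤ p) (hq : 0 ≤ q) (hpq : p + q ≤ 1) :
    ∃ hi : ℝ, (hi = 0 ∨ hi = h ∨ hi = k) ∧ p * h + q * k ≤ hi := by
  have hr : 0 ≤ 1 - p - q := by linarith
  refine ⟨max 0 (max h k), ?_, ?_⟩
  · rcases max_choice 0 (max h k) with e | e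
    · exact Or.inl e
    · rw [e]; exact Or.inr (max_choice h k)
  · have h0 : (0 : ℝ) ≤ max 0 (max h k) := le_max_left _ _
    have h1 : h ≤ max 0 (max h k) := (le_max_left _ _).trans (le_max_right _ _)
    have h2 : k ≤ max 0 (max h k) := (le_max_right _ _).trans (le_max_right _ _)
    have := mul_le_mul_of_nonneg_left h1 hp
    have := mul_le_mul_of_nonneg_left h2 hq
    have := mul_nonneg hr h0
    nlinarith

/-- a V-shaped function which takes the values of the rising line at the corners is above it -/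
lemma line_le_a {a b c d z h k p q : ℝ} (ha : 0 < a) (hb : 0 < b) (hp : 0 ≤ p) (hq : 0 ≤ q)
    (hpq : p + q ≤ 1) (e0 : z = V a b c d 0) (e1 : z + a * h = V a b c d h)
    (e2 : z + a * k = V a b c d k) : z + a * (p * h + q * k) ≤ V a b c d (p * h + q * k) := by
  obtain ⟨hi, h1, h2⟩ := exists_hi (h := h) (k := k) hp hq hpq
  have h3 := V_up ha hb c d h2
  have h4 : V a b c d hi = z + a * hi := by
    rcases h1 with rfl | rfl | rfl
    · rw [← e0]; ring
    · rw [← e1]
    · rw [← e2]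
  nlinarith

lemma line_le_b {a b c d z h k p q : ℝ} (ha : 0 < a) (hb : 0 < b) (hp : 0 ≤ p) (hq : 0 ≤ q)
    (hpq : p + q ≤ 1) (e0 : z = V a b c d 0) (e1 : z - b * h = V a b c d h)
    (e2 : z - b * k = V a b c d k) : z - b * (p * h + q * k) ≤ V a b c d (p * h + q * k) := by
  have := line_le_a (a := b) (b := a) (c := d) (d := c) (z := z) (h := -h) (k := -k) hb ha hp hq
    hpq (by rw [V_refl, neg_zero] at e0; exact e0) (by rw [V_refl] at e1; rw [← e1]; ring)
    (by rw [V_refl] at e2; rw [← e2]; ring)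
  rw [V_refl]
  have e : -(p * h + q * k) = p * -h + q * -k := by ring
  rw [e]
  linarith

/-- if a V-shaped function is affine on a triangle, it is one of the two lines -/
lemma V_centroid {a b c d h k : ℝ}
    (he : V a b c d 0 + V a b c d h + V a b c d k ≤ 3 * V a b c d ((1 / 3) * h + (1 / 3) * k)) :
    (V a b c d h - V a b c d 0 = a * h ∧ V a b c d k - V a b c d 0 = a * k) ∨
    (V a b c d h - V a b c d 0 = -(b * h) ∧ V a b c d k - V a b c d 0 = -(b * k)) := by
  have a0 := V_ge_a a b c d 0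
  have a1 := V_ge_a a b c d h
  have a2 := V_ge_a a b c d k
  have b0 := V_ge_b a b c d 0
  have b1 := V_ge_b a b c d h
  have b2 := V_ge_b a b c d k
  rcases (max_choice (a * ((1 / 3) * h + (1 / 3) * k) + c)
    (d - b * ((1 / 3) * h + (1 / 3) * k))) with e | e
  · left
    have e' : V a b c d ((1 / 3) * h + (1 / 3) * k) = a * ((1 / 3) * h + (1 / 3) * k) + c := e
    rw [e'] at he
    constructor <;> linarith
  · right
    have e' : V a b c d ((1 / 3) * h + (1 / 3) * k) = d - b * ((1 / 3) * h + (1 / 3) * k) := e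
    rw [e'] at he
    constructor <;> linarith

lemma dt_eq_zero {w v v' : ℝ × ℝ} (h1 : dt w v = 0) (h2 : dt w v' = 0) (h : 0 < dt v v') :
    w = 0 := by
  have : dt v v' • w = dt w v' • v - dt w v • v' := by
    ext <;> simp [dt] <;> ring
  rw [h1, h2] at this
  simp only [zero_smul, sub_zero] at this
  exact (smul_eq_zero.1 this).resolve_left h.ne'

/-- On a split surface the first V-shaped function is below the second, affine one. -/
lemma SplitZ.ple {D : Surf} {Z : Side → ℝ} {u₁ u₂ : ℝ × ℝ} {a₁ b₁ a₂ b₂ : ℝ}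
    (h₂ : SplitZ D Z u₂ a₂ b₂) (s : Side) : PLEat D Z u₁ a₁ b₁ u₂ a₂ b₂ s := by
  intro c₁ d₁ c₂ d₂ t1 t2 p q hp hq hpq
  have c := V_convex a₁ b₁ c₁ d₁ (h := dt u₁ (D.vec s)) (k := -(dt u₁ (D.vec (nx (nx s)))))
    hp hq hpq
  rw [← t1.1, ← t1.2.1, ← t1.2.2] at c
  refine c.trans ?_
  by_cases hs : s.1 < 3
  · have e1 := h₂.left s hs
    have e2 := h₂.left (nx (nx s)) hs
    rw [nx3] at e2
    have := line_le_a (c := c₂) (d := d₂) (z := Z s) (h := dt u₂ (D.vec s))
      (k := -(dt u₂ (D.vec (nx (nx s))))) h₂.ha h₂.hb hp hq hpq t2.1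
      (by rw [← t2.2.1, ← e1]; ring) (by rw [← t2.2.2]; linarith)
    refine le_trans (le_of_eq ?_) this
    have e3 : Z (nx s) = Z s + a₂ * dt u₂ (D.vec s) := by linarith
    have e4 : Z (nx (nx s)) = Z s - a₂ * dt u₂ (D.vec (nx (nx s))) := by linarith
    rw [e4, e3]; ring
  · have e1 := h₂.right s hs
    have e2 := h₂.right (nx (nx s)) hs
    rw [nx3] at e2
    have := line_le_b (c := c₂) (d := d₂) (z := Z s) (h := dt u₂ (D.vec s))
      (k := -(dt u₂ (D.vec (nx (nx s))))) h₂.ha h₂.hb hp hq hpq t2.1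
      (by rw [← t2.2.1]; linarith) (by rw [← t2.2.2]; linarith)
    refine le_trans (le_of_eq ?_) this
    have e3 : Z (nx s) = Z s - b₂ * dt u₂ (D.vec s) := by linarith
    have e4 : Z (nx (nx s)) = Z s + b₂ * dt u₂ (D.vec (nx (nx s))) := by linarith
    rw [e4, e3]; ring

/-- If the first function is affine (split surface) and below the second, they agree. -/
lemma SplitZ.grad {D : Surf} {Z : Side → ℝ} {u₁ u₂ : ℝ × ℝ} {a₁ b₁ a₂ b₂ : ℝ}
    (h₁ : SplitZ D Z u₁ a₁ b₁) (hp : Pair D Z u₁ a₁ b₁ u₂ a₂ b₂) (s : Side) {g : ℝ}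
    (hg : ∀ x : Side, x.1 = s.1 → Z (nx x) - Z x = g * dt u₁ (D.vec x)) :
    g • u₁ = a₂ • u₂ ∨ g • u₁ = (-b₂) • u₂ := by
  obtain ⟨c₁, d₁, t1⟩ := hp.k₁.tri s
  obtain ⟨c₂, d₂, t2⟩ := hp.k₂.tri s
  have h3 : (0 : ℝ) ≤ 1 / 3 := by norm_num
  have hle := hp.le s c₁ d₁ c₂ d₂ t1 t2 (1 / 3) (1 / 3) h3 h3 (by norm_num)
  have low : Z s + Z (nx s) + Z (nx (nx s)) ≤ 3 * V a₁ b₁ c₁ d₁
      ((1 / 3) * dt u₁ (D.vec s) + (1 / 3) * (-(dt u₁ (D.vec (nx (nx s)))))) := by
    by_cases hs : s.1 < 3
    · have e1 := h₁.left s hs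
      have e2 := h₁.left (nx (nx s)) hs
      rw [nx3] at e2
      have := line_le_a (c := c₁) (d := d₁) (z := Z s) (h := dt u₁ (D.vec s))
        (k := -(dt u₁ (D.vec (nx (nx s))))) (p := 1 / 3) (q := 1 / 3) h₁.ha h₁.hb h3 h3
        (by norm_num) t1.1 (by rw [← t1.2.1, ← e1]; ring) (by rw [← t1.2.2]; linarith)
      linarith
    · have e1 := h₁.right s hs
      have e2 := h₁.right (nx (nx s)) hs
      rw [nx3] at e2
      have := line_le_b (c := c₁) (d := d₁) (z := Z s) (h := dt u₁ (D.vec s))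
        (k := -(dt u₁ (D.vec (nx (nx s))))) (p := 1 / 3) (q := 1 / 3) h₁.ha h₁.hb h3 h3
        (by norm_num) t1.1 (by rw [← t1.2.1]; linarith) (by rw [← t1.2.2]; linarith)
      linarith
  have key := V_centroid (a := a₂) (b := b₂) (c := c₂) (d := d₂) (h := dt u₂ (D.vec s))
    (k := -(dt u₂ (D.vec (nx (nx s))))) (by
      rw [← t2.1, ← t2.2.1, ← t2.2.2]
      linarith)
  rw [← t2.1, ← t2.2.1, ← t2.2.2] at key
  have g0 := hg s rfl
  have g2 := hg (nx (nx s)) rfl
  rw [nx3] at g2
  have hpos := D.pos (nx (nx s))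
  rw [nx3] at hpos
  rcases key with ⟨k1, k2⟩ | ⟨k1, k2⟩
  · left
    rw [← sub_eq_zero]
    refine dt_eq_zero (v := D.vec (nx (nx s))) (v' := D.vec s) ?_ ?_ hpos
    · rw [sub_eq_add_neg, dt_add_left, dt_neg_left, dt_smul_left, dt_smul_left]
      linarith
    · rw [sub_eq_add_neg, dt_add_left, dt_neg_left, dt_smul_left, dt_smul_left]
      linarith
  · right
    rw [← sub_eq_zero]
    refine dt_eq_zero (v := D.vec (nx (nx s))) (v' := D.vec s) ?_ ?_ hpos
    · rw [sub_eq_add_neg, dt_add_left, dt_neg_left, dt_smul_left, dt_smul_left]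
      linarith
    · rw [sub_eq_add_neg, dt_add_left, dt_neg_left, dt_smul_left, dt_smul_left]
      linarith

/-- The slopes of a split surface are determined up to scaling and exchange. -/
lemma split_unique {D D' : Surf} {Z Z' : Side → ℝ} {u u' : ℝ × ℝ} {a b a' b' : ℝ}
    (h : SplitZ D Z u a b) (h' : SplitZ D' Z' u' a' b') (hc : ReflTransGen Step D D') :
    (a ^ 2 + b ^ 2) * (a' * b') = (a' ^ 2 + b' ^ 2) * (a * b) := by
  obtain ⟨Z₂, z1, z2, z3⟩ := lift_chain hc h.zok
  obtain ⟨k, hk, hkZ⟩ := h'.zok.unique z1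
  have hZ₂ : Z₂ = fun s => k * Z' s := funext hkZ
  have h₂ := h'.smul hk
  rw [← hZ₂] at h₂
  have k1 : KK D' Z₂ u a b := chain_kk z2 h.zok h.ha h.hb h.u_ne h.kk
  have pr : Pair D' Z₂ u a b u' (k * a') (k * b') := ⟨z1, k1, h₂.kk, h₂.ple⟩
  have pr' : Pair D Z u a b u' (k * a') (k * b') :=
    chain_pair h.ha h.hb h.u_ne h₂.ha h₂.hb h₂.u_ne z3 pr
  have g1 := h.grad pr' (0, 0) (g := a) (fun x hx => h.left x (by rw [hx]; decide))
  have g2 := h.grad pr' (3, 0) (g := -b) (fun x hx => by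
    rw [h.right x (by rw [hx]; decide)]; ring)
  have ha := h.ha
  have hb := h.hb
  have ha' := h'.ha
  have hb' := h'.hb
  have hu := h.u_ne
  -- compare coefficients of `u`
  have cmp : ∀ x y x' y' : ℝ, x • u = x' • u' → y • u = y' • u' → y' * x = x' * y := by
    intro x y x' y' e1 e2
    have : (y' * x - x' * y) • u = 0 := by
      rw [sub_smul, mul_smul, mul_smul, e1, e2, smul_smul, smul_smul, mul_comm, sub_self]
    have := (smul_eq_zero.1 this).resolve_right hu
    linarith
  rcases g1 with e1 | e1 <;> rcases g2 with e2 | e2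
  · have := cmp _ _ _ _ e1 e2
    exfalso
    have p1 := mul_pos (mul_pos hk ha') ha
    have p2 := mul_pos (mul_pos hk ha') hb
    linarith
  · have := cmp _ _ _ _ e1 e2
    have e3 : b' * a = a' * b := by
      have : k * (b' * a) = k * (a' * b) := by linarith
      exact mul_left_cancel₀ hk.ne' this
    linear_combination (a * a' - b * b') * e3
  · have := cmp _ _ _ _ e1 e2
    have e3 : a' * a = b' * b := by
      have : k * (a' * a) = k * (b' * b) := by linarith
      exact mul_left_cancel₀ hk.ne' this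
    linear_combination (a * b' - b * a') * e3
  · have := cmp _ _ _ _ e1 e2
    exfalso
    have p1 := mul_pos (mul_pos hk hb') ha
    have p2 := mul_pos (mul_pos hk hb') hb
    linarith

end Pool.Agent.N222.Dil
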