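import Pool.Agent.N222.Dil.Moves

/-!
# V-shaped vertex scales are preserved by the moves
-/

open scoped MatrixGroups

namespace Pool.Agent.N222.Dil

/-- on the triangle of `s` the vertex scale is the V-shaped function with constants `c`, `d` of
the height (over the start of `s`, measured by `dt u`) -/
def TriV (D : Surf) (Z : Side → ℝ) (u : ℝ × ℝ) (a b : ℝ) (s : Side) (c d : ℝ) : Prop :=
  Z s = V a b c d 0 ∧ Z (nx s) = V a b c d (dt u (D.vec s)) ∧
    Z (nx (nx s)) = V a b c d (-(dt u (D.vec (nx (nx s)))))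

/-- the growth from the horizontal side `s` to the opposite corner is as fast as possible -/
def Tight (D : Surf) (Z : Side → ℝ) (u : ℝ × ℝ) (a b : ℝ) (s : Side) : Prop :=
  Z (nx (nx s)) - Z s = tg a b (-(dt u (D.vec (nx (nx s)))))

/-- the vertex scale comes from a V-shaped function -/
structure KK (D : Surf) (Z : Side → ℝ) (u : ℝ × ℝ) (a b : ℝ) : Prop where
  tri : ∀ s, ∃ c d, TriV D Z u a b s c d
  hor : ∀ s, dt u (D.vec s) = 0 → Tight D Z u a b s ∨ Tight D Z u a b (D.glue s)

lemma dt_nx2 (D : Surf) (u : ℝ × ℝ) (s : Side) :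
    -(dt u (D.vec (nx (nx s)))) = dt u (D.vec s) + dt u (D.vec (nx s)) := by
  rw [D.nx2_vec, dt_neg_right, dt_add_right, neg_neg]

lemma TriV.rot {D : Surf} {Z : Side → ℝ} {u : ℝ × ℝ} {a b : ℝ} {s : Side} {c d : ℝ}
    (h : TriV D Z u a b s c d) :
    TriV D Z u a b (nx s) (c + a * dt u (D.vec s)) (d - b * dt u (D.vec s)) := by
  obtain ⟨h1, h2, h3⟩ := h
  refine ⟨?_, ?_, ?_⟩
  · rw [← V_shift, add_zero, h2]
  · rw [← V_shift, ← dt_nx2, h3]
  · rw [← V_shift, nx3, add_neg_cancel, h1]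

/-- scaling the vertex scale -/
lemma V_scale {k : ℝ} (hk : 0 < k) (a b c d s : ℝ) :
    k * V a b c d s = V (k * a) (k * b) (k * c) (k * d) s := by
  unfold V
  rw [mul_max_of_nonneg _ _ hk.le]
  congr 1 <;> ring

lemma tg_scale {k : ℝ} (hk : 0 < k) (a b s : ℝ) :
    k * tg a b s = tg (k * a) (k * b) s := by
  unfold tg
  rw [mul_max_of_nonneg _ _ hk.le]
  congr 1 <;> ring

lemma V_scale' {k : ℝ} (hk : 0 < k) (a b c d s : ℝ) :
    k * V a b c d s = V a b (k * c) (k * d) (k * s) := by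
  unfold V
  rw [mul_max_of_nonneg _ _ hk.le]
  congr 1 <;> ring

lemma tg_scale' {k : ℝ} (hk : 0 < k) (a b s : ℝ) :
    k * tg a b s = tg a b (k * s) := by
  unfold tg
  rw [mul_max_of_nonneg _ _ hk.le]
  congr 1 <;> ring

lemma KK.smul {D : Surf} {Z : Side → ℝ} {u : ℝ × ℝ} {a b : ℝ} (h : KK D Z u a b) {k : ℝ}
    (hk : 0 < k) : KK D (fun s => k * Z s) u (k * a) (k * b) := by
  constructor
  · intro s
    obtain ⟨c, d, h1, h2, h3⟩ := h.tri s
    refine ⟨k * c, k * d, ?_, ?_, ?_⟩ <;> rw [← V_scale hk] <;> beta_reduce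
    · rw [h1]
    · rw [h2]
    · rw [h3]
  · intro s hs
    have : ∀ x, Tight D Z u a b x → Tight D (fun s => k * Z s) u (k * a) (k * b) x := by
      intro x hx
      unfold Tight at *
      rw [← tg_scale hk, ← hx]; ring
    exact (h.hor s hs).imp (this _) (this _)

/-! ### relabelling -/

lemma TriV.relabel {e : Side ≃ Side} {m : Side → ℝ} {D D' : Surf} (h : IsRelabel e m D D')
    {Z Z' : Side → ℝ} (hr : ZRel e m Z Z') {u : ℝ × ℝ} {a b : ℝ} {s : Side} {c d : ℝ}
    (ht : TriV D Z u a b s c d) : TriV D' Z' u a b (e s) (m s * c) (m s * d) := by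
  obtain ⟨h1, h2, h3, h4, h5⟩ := h
  obtain ⟨t1, t2, t3⟩ := ht
  refine ⟨?_, ?_, ?_⟩
  · rw [hr, t1, V_scale' (h2 s), mul_zero]
  · rw [← h1, hr, t2, h3, V_scale' (h2 s), h5, dt_smul_right]
  · rw [← h1, ← h1, hr, t3, h3, h3, V_scale' (h2 s), h5, dt_smul_right, h3, h3, mul_neg]

lemma Tight.relabel {e : Side ≃ Side} {m : Side → ℝ} {D D' : Surf} (h : IsRelabel e m D D')
    {Z Z' : Side → ℝ} (hr : ZRel e m Z Z') {u : ℝ × ℝ} {a b : ℝ} {s : Side}
    (ht : Tight D Z u a b s) : Tight D' Z' u a b (e s) := by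
  obtain ⟨h1, h2, h3, h4, h5⟩ := h
  unfold Tight at *
  rw [← h1, ← h1, hr, hr, h5, h3, h3, dt_smul_right, ← mul_neg, ← tg_scale' (h2 s), ← ht]
  ring

lemma KK.relabel {e : Side ≃ Side} {m : Side → ℝ} {D D' : Surf} (h : IsRelabel e m D D')
    {Z Z' : Side → ℝ} (hr : ZRel e m Z Z') {u : ℝ × ℝ} {a b : ℝ}
    (hk : KK D Z u a b) : KK D' Z' u a b := by
  constructor
  · intro s
    obtain ⟨s, rfl⟩ := e.surjective s
    obtain ⟨c, d, ht⟩ := hk.tri s
    exact ⟨_, _, ht.relabel h hr⟩
  · intro s hs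
    obtain ⟨s, rfl⟩ := e.surjective s
    obtain ⟨h1, h2, h3, h4, h5⟩ := h
    rw [h5, dt_smul_right] at hs
    have hs' := (mul_eq_zero.1 hs).resolve_left (h2 s).ne'
    rw [h4]
    exact (hk.hor s hs').imp (fun x => x.relabel ⟨h1, h2, h3, h4, h5⟩ hr)
      (fun x => x.relabel ⟨h1, h2, h3, h4, h5⟩ hr)

/-! ### flips -/

section flip

variable {s : Side} {D D' : Surf} {Z Z' : Side → ℝ} {u : ℝ × ℝ} {a b : ℝ}

/-- Common V-shaped function on the four corners of the quadrilateral. -/
lemma KK.joint (ha : 0 < a) (hb : 0 < b) (hu : u ≠ 0) (h : IsFlip s D D') (hZ : ZOK D Z)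
    (hk : KK D Z u a b) : ∃ c d, TriV D Z u a b s c d ∧ TriV D Z u a b (nx (D.glue s)) c d := by
  obtain ⟨c, d, t1, t2, t3⟩ := hk.tri s
  obtain ⟨c', d', t1', t2', t3'⟩ := hk.tri (nx (D.glue s))
  have zt : Z (D.glue s) = Z (nx s) := by rw [hZ.glue, h.r_s, one_mul]
  have zs : Z s = Z (nx (D.glue s)) := by
    have := hZ.glue (D.glue s)
    rwa [D.glue_glue, D.r_glue, h.r_s, inv_one, one_mul] at this
  rw [nx3, h.1, dt_neg_right, neg_neg, zt] at t3'
  rw [← zs] at t1'
  -- the four areas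
  have pm := D.pos (D.glue s)
  have pn := D.pos s
  have pb := h.conv_i
  have pa := h.conv_j
  have e1 := D.closed s
  have e2 := D.closed (D.glue s)
  have hx1 : D.vec (nx s) = -D.vec s - D.vec (nx (nx s)) := by
    rw [eq_sub_iff_add_eq, eq_neg_iff_add_eq_zero, ← e1]; abel
  have hx2 : D.vec (nx (nx (D.glue s))) = D.vec s - D.vec (nx (D.glue s)) := by
    rw [h.1] at e2
    rw [eq_sub_iff_add_eq, ← sub_eq_zero, ← e2]; abel
  obtain ⟨C, E, g1, g2, g3, g4⟩ := jointV ha hb (Zi := Z s) (Zj := Z (nx s))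
    (Zk := Z (nx (nx s))) (Zl := Z (nx (nx (D.glue s)))) t1 t2 t3 t1' t3' t2'
    (m := dt (D.vec (D.glue s)) (D.vec (nx (D.glue s)))) (n := dt (D.vec s) (D.vec (nx s)))
    (α := dt (D.vec (nx (nx (D.glue s)))) (D.vec (nx s)))
    (β := dt (D.vec (nx (nx s))) (D.vec (nx (D.glue s)))) pm pn pa pb
    (by rw [h.1, hx1, hx2]; simp only [dt, Prod.fst_sub, Prod.snd_sub, Prod.fst_neg,
          Prod.snd_neg]; ring)
    (by rw [h.1, hx1]; simp only [dt, Prod.fst_sub, Prod.snd_sub, Prod.fst_neg,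
          Prod.snd_neg]; ring)
    (by
      intro h0 h1
      have := same_side hu h0 pn pn
      rw [dt_nx2, h0, zero_add] at h1
      rw [h1] at this
      simp at this)
    (by
      intro h0
      rcases hk.hor s h0 with hh | hh
      · exact Or.inl hh
      · right
        unfold Tight at hh
        rw [dt_nx2, h.1, dt_neg_right, h0, neg_zero, zero_add, zt] at hh
        have hij : Z (nx s) = Z s := by rw [t1, t2, h0]
        rw [← hh, hij])
  refine ⟨C, E, ⟨g1, g2, g3⟩, ?_, ?_, ?_⟩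
  · rw [← zs]; exact g1
  · exact g4
  · rw [nx3, h.1, dt_neg_right, neg_neg, zt]; exact g2

/-- the new triangle with the corner `i` -/
lemma TriV.flip (h : IsFlip s D D') (hf : ZFlip s (D.glue s) Z Z') {c d : ℝ}
    (h1 : TriV D Z u a b s c d) (h2 : TriV D Z u a b (nx (D.glue s)) c d) :
    TriV D' Z' u a b (nx (nx s)) c d := by
  have hst := D.glue_fst s
  obtain ⟨t1, t2, t3⟩ := h1
  obtain ⟨t1', t2', t3'⟩ := h2
  refine ⟨?_, ?_, ?_⟩
  · rw [hf.z_3 hst]; exact t1'
  · rw [nx3, hf.2.1, h.vec_3]; exact t2'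
  · rw [nx3, hf.z_2 hst, h.vec_2]; exact t3

/-- a tight side of the triangle of `s` stays tight -/
lemma Tight.flip (ha : 0 < a) (hb : 0 < b) (hu : u ≠ 0) (h : IsFlip s D D') (hZ : ZOK D Z)
    (hf : ZFlip s (D.glue s) Z Z') {c d : ℝ}
    (h1 : TriV D Z u a b s c d) (h2 : TriV D Z u a b (nx (D.glue s)) c d) {x : Side}
    (hx : x = nx s ∨ x = nx (nx s)) (h0 : dt u (D.vec x) = 0) (ht : Tight D Z u a b x) :
    Tight D' Z' u a b (turn s (D.glue s) x) := by
  have hst := D.glue_fst s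
  obtain ⟨t1, t2, t3⟩ := h1
  obtain ⟨t1', t2', t3'⟩ := h2
  have zt : Z (D.glue s) = Z (nx s) := by rw [hZ.glue, h.r_s, one_mul]
  have e2 := D.closed (D.glue s)
  have hx2 : D.vec (nx (nx (D.glue s))) = D.vec s - D.vec (nx (D.glue s)) := by
    rw [h.1] at e2
    rw [eq_sub_iff_add_eq, ← sub_eq_zero, ← e2]; abel
  rcases hx with rfl | rfl
  · -- side from `j` to `k`
    rw [turn_1]
    unfold Tight at *
    rw [nx3] at ht
    rw [nx3, h.vec_4, hf.z_4 hst, hf.z_1 hst, t2', t2, hx2]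
    rw [t1, t2] at ht
    have key := same_side hu h0 (w := -(D.vec s)) (w' := -(D.vec (nx (nx (D.glue s)))))
      (by rw [dt_neg_right, ← dt_comm]; exact D.pos s)
      (by rw [dt_neg_right, ← dt_comm]; exact h.conv_j)
    have := tight_same ha hb (C := c) (E := d) (p := dt u (D.vec s)) (w := 0)
      (w' := dt u (D.vec (nx (D.glue s)))) (by
        rw [hx2] at key
        simp only [dt, Prod.fst_neg, Prod.snd_neg, Prod.fst_sub, Prod.snd_sub] at key ⊢
        linarith) (by rw [zero_sub]; exact ht)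
    rw [this]
    congr 1
    simp only [dt, Prod.fst_sub, Prod.snd_sub]; ring
  · -- side from `k` to `i`
    rw [turn_4 hst]
    unfold Tight at *
    rw [nx3] at ht
    rw [nx3, h.vec_s, hf.z_2 hst, hf.2.1, t2', t3]
    rw [t2, t3] at ht
    have h0' := h0
    have key := same_side hu h0 (w := -(D.vec (nx s)))
      (w' := (D.vec (nx (nx s)) + D.vec (nx (D.glue s))))
      (by rw [dt_neg_right, ← dt_comm]; exact (D.pos (nx s)))
      (by rw [dt_add_right, dt_self, zero_add]; exact h.conv_i)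
    have hcl := D.closed s
    have hx1 : D.vec s = -D.vec (nx s) - D.vec (nx (nx s)) := by
      rw [eq_sub_iff_add_eq, eq_neg_iff_add_eq_zero, ← hcl]; abel
    have := tight_same ha hb (C := c) (E := d) (p := -(dt u (D.vec (nx (nx s)))))
      (w := dt u (D.vec s))
      (w' := dt u (D.vec (nx (D.glue s)))) (by
        rw [hx1]
        simp only [dt, Prod.fst_neg, Prod.snd_neg, Prod.fst_sub, Prod.snd_sub, Prod.fst_add,
          Prod.snd_add] at key ⊢
        linarith) (by
        rw [ht]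
        congr 1
        rw [hx1]
        simp only [dt, Prod.fst_neg, Prod.snd_neg, Prod.fst_sub, Prod.snd_sub]; ring)
    rw [this]
    congr 1
    simp only [dt, Prod.fst_neg, Prod.snd_neg, Prod.fst_add, Prod.snd_add]; ring

/-- V-shaped vertex scales are preserved by flips. -/
lemma KK.flip (ha : 0 < a) (hb : 0 < b) (hu : u ≠ 0) (h : IsFlip s D D') (hZ : ZOK D Z)
    (hf : ZFlip s (D.glue s) Z Z') (hk : KK D Z u a b) : KK D' Z' u a b := by
  have hst := D.glue_fst s
  have h' := h.symm'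
  have hf' : ZFlip (D.glue s) (D.glue (D.glue s)) Z Z' := by
    rw [D.glue_glue]; exact hf.symm' hst
  obtain ⟨c, d, h1, h2⟩ := hk.joint ha hb hu h hZ
  obtain ⟨c', d', h1', h2'⟩ := hk.joint ha hb hu h' hZ
  have n1 := TriV.flip h hf h1 h2
  have n2 := TriV.flip h' hf' h1' h2'
  have tt : ∀ x, dt u (D.vec x) = 0 → x ≠ s → x ≠ D.glue s → Tight D Z u a b x →
      Tight D' Z' u a b (turn s (D.glue s) x) := by
    intro x h0 hx hx' ht
    rcases side_cases s (D.glue s) x with (e | e | e) | (e | e | e) | ⟨e1, e2⟩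
    · exact absurd e hx
    · exact ht.flip ha hb hu h hZ hf h1 h2 (Or.inl e) h0
    · exact ht.flip ha hb hu h hZ hf h1 h2 (Or.inr e) h0
    · exact absurd e hx'
    · have := ht.flip ha hb hu h' hZ hf' h1' h2'
        (Or.inl e) h0
      rwa [D.glue_glue, turn_symm hst] at this
    · have := ht.flip ha hb hu h' hZ hf' h1' h2'
        (Or.inr e) h0
      rwa [D.glue_glue, turn_symm hst] at this
    · rw [turn_7 e1 e2]
      unfold Tight at *
      rw [hf.z_o e1 e2, hf.z_o (x := nx (nx x)) e1 e2, h.vec_o (x := nx (nx x)) e1 e2, ht]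
  have hh : ∀ x, x ≠ s → x ≠ D.glue s → dt u (D'.vec (turn s (D.glue s) x)) = 0 →
      Tight D' Z' u a b (turn s (D.glue s) x) ∨
        Tight D' Z' u a b (D'.glue (turn s (D.glue s) x)) := by
    intro x hx hx' h0
    rw [h.2.2 x hx hx'] at h0
    rw [h.2.1]
    have hy : D.glue x ≠ s := by
      intro hh; apply hx'; rw [← hh, D.glue_glue]
    have hy' : D.glue x ≠ D.glue s := by
      intro hh; apply hx; rw [← D.glue_glue x, hh, D.glue_glue]
    refine (hk.hor x h0).imp (tt x h0 hx hx') (tt _ ?_ hy hy')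
    rw [D.vec_glue, dt_neg_right, dt_smul_right, h0, mul_zero, neg_zero]
  -- the new diagonal
  have hd : dt u (D'.vec s) = 0 → Tight D' Z' u a b s ∨ Tight D' Z' u a b (D.glue s) := by
    intro h0
    have e1 := D.closed s
    have hx1 : D.vec s = -D.vec (nx s) - D.vec (nx (nx s)) := by
      rw [eq_sub_iff_add_eq, eq_neg_iff_add_eq_zero, ← e1]; abel
    have key := same_side hu h0 (w := -(D.vec (nx (D.glue s)))) (w' := D.vec (nx s))
      (by
        have := D'.pos (nx (nx s))
        rw [nx3, h.vec_3] at this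
        rw [dt_neg_right, ← dt_comm]; exact this)
      (by
        have := D'.pos (D.glue s)
        have e3 : D'.vec (D.glue s) = - D'.vec s := by
          have := D'.vec_glue s
          rwa [h.glue_s, h.r_s', one_smul] at this
        have e4 := D'.pos' (D.glue s)
        have e5 := D'.pos' (nx (D.glue s))
        rw [nx3] at e5
        rw [e4, e5, h.vec_1, e3, dt_neg_right, ← dt_comm] at this
        exact this)
    have hkl : -(dt u (D.vec (nx (nx s)))) = dt u (D.vec (nx (D.glue s))) := by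
      rw [h.vec_s, dt_neg_right, dt_add_right] at h0
      linarith
    have hneg : (0 - -(dt u (D.vec (nx (nx s))))) * (dt u (D.vec s) - -(dt u (D.vec (nx (nx s)))))
        < 0 := by
      have e6 : dt u (D.vec s) - -(dt u (D.vec (nx (nx s)))) = -(dt u (D.vec (nx s))) := by
        rw [hx1]
        simp only [dt, Prod.fst_sub, Prod.snd_sub, Prod.fst_neg, Prod.snd_neg]; ring
      rw [e6, hkl]
      rw [dt_neg_right] at key
      linarith
    obtain ⟨t1, t2, t3⟩ := h1
    obtain ⟨t1', t2', t3'⟩ := h2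
    rcases tight_new ha hb (C := c) (E := d) hneg with hh | hh
    · left
      unfold Tight
      rw [hf.z_3 hst, hf.2.1, h.vec_3, t1', t2', ← hkl, hh]
      congr 1
      ring
    · right
      unfold Tight
      rw [hf.z_1 hst, hf.2.2, h.vec_1, t2, t3, hh]
      congr 1
      rw [hx1]
      simp only [dt, Prod.fst_sub, Prod.snd_sub, Prod.fst_neg, Prod.snd_neg]; ring
  constructor
  · intro x
    rcases side_cases s (D.glue s) x with (rfl | rfl | rfl) | (rfl | rfl | rfl) | ⟨e1, e2⟩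
    · have := n1.rot
      rw [nx3] at this
      exact ⟨_, _, this⟩
    · have := n1.rot.rot
      rw [nx3] at this
      exact ⟨_, _, this⟩
    · exact ⟨_, _, n1⟩
    · have := n2.rot
      rw [nx3] at this
      exact ⟨_, _, this⟩
    · have := n2.rot.rot
      rw [nx3] at this
      exact ⟨_, _, this⟩
    · exact ⟨_, _, n2⟩
    · obtain ⟨c₀, d₀, g1, g2, g3⟩ := hk.tri x
      refine ⟨c₀, d₀, ?_, ?_, ?_⟩
      · rw [hf.z_o e1 e2, g1]
      · rw [hf.z_o (x := nx x) e1 e2, g2, h.vec_o e1 e2]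
      · rw [hf.z_o (x := nx (nx x)) e1 e2, g3, h.vec_o (x := nx (nx x)) e1 e2]
  · intro x h0
    rcases side_cases s (D.glue s) x with (rfl | rfl | rfl) | (rfl | rfl | rfl) | ⟨e1, e2⟩
    · rw [h.glue_s]; exact hd h0
    · have := hh (nx (nx s)) (nx2_ne _) (ne_of_fst hst rfl rfl)
      rw [turn_4 hst] at this
      exact this h0
    · have := hh (nx (D.glue s)) (ne_of_fst hst.symm rfl rfl) (nx_ne _)
      rw [turn_3 hst] at this
      exact this h0
    · have e : D'.glue (D.glue s) = s := by rw [h'.glue_s, D.glue_glue]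
      rw [e]
      refine (hd ?_).symm
      have e3 := D'.vec_glue s
      rw [h.glue_s, h.r_s', one_smul] at e3
      rw [e3, dt_neg_right, neg_eq_zero] at h0
      exact h0
    · have := hh (nx (nx (D.glue s))) (ne_of_fst hst.symm rfl rfl) (nx2_ne _)
      rw [turn_2 hst] at this
      exact this h0
    · have := hh (nx s) (nx_ne _) (ne_of_fst hst rfl rfl)
      rw [turn_1] at this
      exact this h0
    · have := hh x (by rintro rfl; exact e1 rfl) (by rintro rfl; exact e2 rfl)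
      rw [turn_7 e1 e2] at this
      exact this h0

end flip

end Pool.Agent.N222.Dil
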