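import Pool.Agent.N222.Dil.Defs

/-!
# V-shaped functions of one real variable with slopes `-b` and `a`
-/

namespace Pool.Agent.N222.Dil

/-- The V-shaped function with slopes `-b` and `a`. -/
def V (a b c d s : ℝ) : ℝ := max (a * s + c) (d - b * s)

lemma V_shift (a b c d h s : ℝ) :
    V a b c d (h + s) = V a b (c + a * h) (d - b * h) s := by
  unfold V
  congr 1 <;> ring

lemma V_ge_a (a b c d s : ℝ) : a * s + c ≤ V a b c d s := le_max_left _ _

lemma V_ge_b (a b c d s : ℝ) : d - b * s ≤ V a b c d s := le_max_right _ _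

lemma V_up {a b : ℝ} (ha : 0 < a) (hb : 0 < b) (c d : ℝ) {s s' : ℝ} (h : s ≤ s') :
    V a b c d s' ≤ V a b c d s + a * (s' - s) := by
  have h1 := V_ge_a a b c d s
  have h2 := V_ge_b a b c d s
  have h3 : 0 ≤ b * (s' - s) := mul_nonneg hb.le (by linarith)
  have h4 : 0 ≤ a * (s' - s) := mul_nonneg ha.le (by linarith)
  unfold V at *
  apply max_le <;> nlinarith

lemma V_dn {a b : ℝ} (ha : 0 < a) (hb : 0 < b) (c d : ℝ) {s s' : ℝ} (h : s ≤ s') :
    V a b c d s ≤ V a b c d s' + b * (s' - s) := by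
  have h1 := V_ge_a a b c d s'
  have h2 := V_ge_b a b c d s'
  have h3 : 0 ≤ b * (s' - s) := mul_nonneg hb.le (by linarith)
  have h4 : 0 ≤ a * (s' - s) := mul_nonneg ha.le (by linarith)
  unfold V at *
  apply max_le <;> nlinarith

/-- If `V` and `V'` agree at `s'` and `s ≤ s'`, the rising branch of `V` at `s` is below `V'`. -/
lemma branch_a {a b : ℝ} (ha : 0 < a) (hb : 0 < b) {c d c' d' s s' : ℝ} (h : s ≤ s')
    (he : V a b c d s' = V a b c' d' s') : a * s + c ≤ V a b c' d' s := by
  have h1 := V_up ha hb c' d' h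
  have h2 := V_ge_a a b c d s'
  nlinarith

lemma branch_b {a b : ℝ} (ha : 0 < a) (hb : 0 < b) {c d c' d' s s' : ℝ} (h : s' ≤ s)
    (he : V a b c d s' = V a b c' d' s') : d - b * s ≤ V a b c' d' s := by
  have h1 := V_dn ha hb c' d' h
  have h2 := V_ge_b a b c d s'
  nlinarith

/-- Two V-shaped functions that agree at two points agree in between. -/
lemma V_eq_between {a b : ℝ} (ha : 0 < a) (hb : 0 < b) {c d c' d' s₁ s₂ s : ℝ}
    (h1 : s₁ ≤ s) (h2 : s ≤ s₂) (e1 : V a b c d s₁ = V a b c' d' s₁)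
    (e2 : V a b c d s₂ = V a b c' d' s₂) : V a b c d s = V a b c' d' s := by
  apply le_antisymm
  · exact max_le (branch_a ha hb h2 e2) (branch_b ha hb h1 e1)
  · exact max_le (branch_a ha hb h2 e2.symm) (branch_b ha hb h1 e1.symm)

/-- Two V-shaped functions that agree at the three corners `0, h, k` of a triangle agree on it. -/
lemma V_eq_tri {a b : ℝ} (ha : 0 < a) (hb : 0 < b) {c d c' d' h k p q : ℝ}
    (hp : 0 ≤ p) (hq : 0 ≤ q) (hpq : p + q ≤ 1)
    (e0 : V a b c d 0 = V a b c' d' 0) (e1 : V a b c d h = V a b c' d' h)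
    (e2 : V a b c d k = V a b c' d' k) :
    V a b c d (p * h + q * k) = V a b c' d' (p * h + q * k) := by
  -- choose extreme corners
  have key : ∀ lo hi : ℝ, (lo = 0 ∨ lo = h ∨ lo = k) → (hi = 0 ∨ hi = h ∨ hi = k) →
      lo ≤ p * h + q * k → p * h + q * k ≤ hi →
      V a b c d (p * h + q * k) = V a b c' d' (p * h + q * k) := by
    intro lo hi hlo hhi h1 h2
    refine V_eq_between ha hb h1 h2 ?_ ?_
    · rcases hlo with rfl | rfl | rfl <;> assumption
    · rcases hhi with rfl | rfl | rfl <;> assumption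
  have hr : 0 ≤ 1 - p - q := by linarith
  have aux : ∀ δ x0 x1 x2 : ℝ, 0 < δ → δ ≤ x0 → δ ≤ x1 → δ ≤ x2 →
      0 < (1 - p - q) * x0 + p * x1 + q * x2 := by
    intro δ x0 x1 x2 hδ h0 h1 h2
    have := mul_le_mul_of_nonneg_left h0 hr
    have := mul_le_mul_of_nonneg_left h1 hp
    have := mul_le_mul_of_nonneg_left h2 hq
    nlinarith
  have hlo : ∃ lo : ℝ, (lo = 0 ∨ lo = h ∨ lo = k) ∧ lo ≤ p * h + q * k := by
    by_contra hcon
    push Not at hcon
    have h0 := hcon 0 (Or.inl rfl)
    have h1 := hcon h (Or.inr (Or.inl rfl))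
    have h2 := hcon k (Or.inr (Or.inr rfl))
    have := aux (min (0 - (p * h + q * k)) (min (h - (p * h + q * k)) (k - (p * h + q * k)))) _ _ _
      (lt_min (by linarith) (lt_min (by linarith) (by linarith)))
      (min_le_left _ _) ((min_le_right _ _).trans (min_le_left _ _))
      ((min_le_right _ _).trans (min_le_right _ _))
    nlinarith
  have hhi : ∃ hi : ℝ, (hi = 0 ∨ hi = h ∨ hi = k) ∧ p * h + q * k ≤ hi := by
    by_contra hcon
    push Not at hcon
    have h0 := hcon 0 (Or.inl rfl)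
    have h1 := hcon h (Or.inr (Or.inl rfl))
    have h2 := hcon k (Or.inr (Or.inr rfl))
    have := aux (min ((p * h + q * k) - 0) (min ((p * h + q * k) - h) ((p * h + q * k) - k))) _ _ _
      (lt_min (by linarith) (lt_min (by linarith) (by linarith)))
      (min_le_left _ _) ((min_le_right _ _).trans (min_le_left _ _))
      ((min_le_right _ _).trans (min_le_right _ _))
    nlinarith
  obtain ⟨lo, hl, hl'⟩ := hlo
  obtain ⟨hi, hh, hh'⟩ := hhi
  exact key lo hi hl hh hl' hh'

/-- Convexity. -/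
lemma V_convex (a b c d : ℝ) {h k p q : ℝ} (hp : 0 ≤ p) (hq : 0 ≤ q) (hpq : p + q ≤ 1) :
    V a b c d (p * h + q * k) ≤
      (1 - p - q) * V a b c d 0 + p * V a b c d h + q * V a b c d k := by
  have hr : 0 ≤ 1 - p - q := by linarith
  apply max_le
  · have h0 := mul_le_mul_of_nonneg_left (V_ge_a a b c d 0) hr
    have h1 := mul_le_mul_of_nonneg_left (V_ge_a a b c d h) hp
    have h2 := mul_le_mul_of_nonneg_left (V_ge_a a b c d k) hq
    nlinarith
  · have h0 := mul_le_mul_of_nonneg_left (V_ge_b a b c d 0) hr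
    have h1 := mul_le_mul_of_nonneg_left (V_ge_b a b c d h) hp
    have h2 := mul_le_mul_of_nonneg_left (V_ge_b a b c d k) hq
    nlinarith

/-- The rate at which `V` grows from a point if it is tight there. -/
def tg (a b h : ℝ) : ℝ := max (a * h) (-(b * h))

lemma tg_pos {a b h : ℝ} (ha : 0 < a) (hb : 0 < b) (hh : 0 ≤ h) : tg a b h = a * h := by
  unfold tg
  apply max_eq_left
  have := mul_nonneg ha.le hh
  have := mul_nonneg hb.le hh
  linarith

lemma tg_neg {a b h : ℝ} (ha : 0 < a) (hb : 0 < b) (hh : h ≤ 0) : tg a b h = -(b * h) := by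
  unfold tg
  apply max_eq_right
  have := mul_nonneg ha.le (neg_nonneg.2 hh)
  have := mul_nonneg hb.le (neg_nonneg.2 hh)
  linarith

lemma V_refl (a b c d s : ℝ) : V a b c d s = V b a d c (-s) := by
  unfold V
  rw [max_comm]
  congr 1 <;> ring

lemma tg_refl (a b h : ℝ) : tg a b h = tg b a (-h) := by
  unfold tg
  rw [max_comm]
  congr 1 <;> ring

lemma max_cases_of_eq {z x y : ℝ} (h : z = max x y) : x ≤ z ∧ y ≤ z ∧ (z = x ∨ z = y) := by
  subst h
  exact ⟨le_max_left _ _, le_max_right _ _, max_choice _ _⟩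

lemma eq_max_of {z x y : ℝ} (h1 : x ≤ z) (h2 : y ≤ z) (h : z = x ∨ z = y) : z = max x y := by
  apply le_antisymm
  · rcases h with h | h
    · exact h.le.trans (le_max_left _ _)
    · exact h.le.trans (le_max_right _ _)
  · exact max_le h1 h2

/-- lower corner `k`, upper corner `l`, diagonal between the heights `0 < j` -/
lemma jointV_outer {a b : ℝ} (ha : 0 < a) (hb : 0 < b) {c d c' d' j k l Zi Zj Zk Zl : ℝ}
    (i1 : Zi = V a b c d 0) (j1 : Zj = V a b c d j) (k1 : Zk = V a b c d k)
    (i2 : Zi = V a b c' d' 0) (j2 : Zj = V a b c' d' j) (l2 : Zl = V a b c' d' l)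
    (hj : 0 < j) (hk : k < 0) (hl : j < l) :
    ∃ C E : ℝ, Zi = V a b C E 0 ∧ Zj = V a b C E j ∧ Zk = V a b C E k ∧ Zl = V a b C E l := by
  have p1 := mul_pos ha hj
  have p2 := mul_pos hb hj
  have p3 := mul_neg_of_pos_of_neg ha hk
  have p4 := mul_neg_of_pos_of_neg hb hk
  have p5 := mul_lt_mul_of_pos_left hl ha
  have p6 := mul_lt_mul_of_pos_left hl hb
  unfold V at *
  obtain ⟨a1, a2, a3⟩ := max_cases_of_eq i1
  obtain ⟨b1, b2, b3⟩ := max_cases_of_eq j1
  obtain ⟨c1, c2, c3⟩ := max_cases_of_eq k1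
  obtain ⟨d1, d2, d3⟩ := max_cases_of_eq i2
  obtain ⟨e1, e2, e3⟩ := max_cases_of_eq j2
  obtain ⟨f1, f2, f3⟩ := max_cases_of_eq l2
  clear i1 j1 k1 i2 j2 l2
  simp only [mul_zero, zero_add, sub_zero] at *
  refine ⟨c', d, ?_, ?_, ?_, ?_⟩
  · refine eq_max_of (by linarith) (by linarith) ?_
    rcases a3 with a3 | a3
    · left
      rcases e3 with e3 | e3 <;> linarith
    · right; linarith
  · refine eq_max_of (by linarith) (by linarith) ?_
    rcases e3 with e3 | e3
    · left; linarith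
    · right
      rcases a3 with a3 | a3 <;> linarith
  · have : a * k + Zi ≤ Zk := by
      rcases a3 with a3 | a3 <;> linarith
    refine eq_max_of (by linarith) (by linarith) ?_
    rcases c3 with c3 | c3
    · rcases e3 with e3 | e3
      · left; linarith
      · right; linarith
    · right; linarith
  · have : Zj ≤ Zl + b * l - b * j := by
      rcases e3 with e3 | e3 <;> linarith
    refine eq_max_of (by linarith) (by linarith) ?_
    rcases f3 with f3 | f3
    · left; linarith
    · rcases a3 with a3 | a3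
      · left; linarith
      · right; linarith

/-- horizontal diagonal, `k` above, `l` below -/
lemma jointV_flat {a b : ℝ} (ha : 0 < a) (hb : 0 < b) {c d c' d' k l Zi Zk Zl : ℝ}
    (i1 : Zi = V a b c d 0) (k1 : Zk = V a b c d k)
    (i2 : Zi = V a b c' d' 0) (l2 : Zl = V a b c' d' l)
    (hk : 0 < k) (hl : l < 0) (ht : Zk - Zi = a * k ∨ Zl - Zi = -(b * l)) :
    ∃ C E : ℝ, Zi = V a b C E 0 ∧ Zk = V a b C E k ∧ Zl = V a b C E l := by
  have p1 := mul_pos ha hk
  have p2 := mul_pos hb hk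
  have p3 := mul_neg_of_pos_of_neg ha hl
  have p4 := mul_neg_of_pos_of_neg hb hl
  unfold V at *
  obtain ⟨a1, a2, a3⟩ := max_cases_of_eq i1
  obtain ⟨c1, c2, c3⟩ := max_cases_of_eq k1
  obtain ⟨d1, d2, d3⟩ := max_cases_of_eq i2
  obtain ⟨f1, f2, f3⟩ := max_cases_of_eq l2
  clear i1 k1 i2 l2
  simp only [mul_zero, zero_add, sub_zero] at *
  have hc : Zk - Zi = a * k → c = Zi := by
    intro h
    rcases c3 with c3 | c3 <;> linarith
  have hd : Zl - Zi = -(b * l) → d' = Zi := by
    intro h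
    rcases f3 with f3 | f3 <;> linarith
  refine ⟨c, d', ?_, ?_, ?_⟩
  · refine eq_max_of (by linarith) (by linarith) ?_
    rcases ht with ht | ht
    · left; exact (hc ht).symm
    · right; exact (hd ht).symm
  · have : Zi ≤ Zk + b * k := by
      rcases a3 with a3 | a3 <;> linarith
    refine eq_max_of (by linarith) (by linarith) ?_
    rcases ht with ht | ht
    · left; have := hc ht; linarith
    · have := hd ht
      rcases c3 with c3 | c3
      · left; linarith
      · right; linarith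
  · have : a * l + Zi ≤ Zl := by
      rcases d3 with d3 | d3 <;> linarith
    refine eq_max_of (by linarith) (by linarith) ?_
    rcases ht with ht | ht
    · have := hc ht
      rcases f3 with f3 | f3
      · left; linarith
      · right; linarith
    · right; have := hd ht; linarith

lemma jointV_pos {a b : ℝ} (ha : 0 < a) (hb : 0 < b) {c d c' d' j k l Zi Zj Zk Zl : ℝ}
    (i1 : Zi = V a b c d 0) (j1 : Zj = V a b c d j) (k1 : Zk = V a b c d k)
    (i2 : Zi = V a b c' d' 0) (j2 : Zj = V a b c' d' j) (l2 : Zl = V a b c' d' l)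
    {m n α β : ℝ} (hm : 0 < m) (hn : 0 < n) (hα : 0 < α) (hβ : 0 < β)
    (hmn : m + n = α + β) (hcross : m * k + n * l = β * j) (hj : 0 < j) :
    ∃ C E : ℝ, Zi = V a b C E 0 ∧ Zj = V a b C E j ∧ Zk = V a b C E k ∧ Zl = V a b C E l := by
  by_cases hl : 0 ≤ l ∧ l ≤ j
  · refine ⟨c, d, i1, j1, k1, ?_⟩
    rw [l2]
    exact V_eq_between ha hb hl.1 hl.2 (i2 ▸ i1) (j2 ▸ j1)
  by_cases hk : 0 ≤ k ∧ k ≤ j
  · refine ⟨c', d', i2, j2, ?_, l2⟩
    rw [k1]
    exact V_eq_between ha hb hk.1 hk.2 (i1 ▸ i2) (j1 ▸ j2)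
  rcases lt_or_ge k 0 with k0 | k0
  · have hl' : j < l := by
      by_contra hcon
      push Not at hcon
      have hl0 : l < 0 := by
        by_contra h
        push Not at h
        exact hl ⟨h, hcon⟩
      nlinarith [mul_pos hβ hj, mul_pos hm (neg_pos.2 k0), mul_pos hn (neg_pos.2 hl0)]
    exact jointV_outer ha hb i1 j1 k1 i2 j2 l2 hj k0 hl'
  · have hk' : j < k := by
      by_contra hcon
      push Not at hcon
      exact hk ⟨k0, hcon⟩
    have hl' : l < 0 := by
      by_contra hcon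
      push Not at hcon
      have hl0 : j < l := by
        by_contra h
        push Not at h
        exact hl ⟨hcon, h⟩
      nlinarith [mul_pos hα hj, mul_pos hm (sub_pos.2 hk'), mul_pos hn (sub_pos.2 hl0)]
    obtain ⟨C, E, h1, h2, h3, h4⟩ := jointV_outer ha hb i2 j2 l2 i1 j1 k1 hj hl' hk'
    exact ⟨C, E, h1, h2, h4, h3⟩

/-- The joint lemma: a V-shaped function on each of the two triangles of a convex quadrilateral
(diagonal `0, j`, other corners `k, l`) is one V-shaped function, provided it is tight on one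
side when the diagonal is horizontal. -/
lemma jointV {a b : ℝ} (ha : 0 < a) (hb : 0 < b) {c d c' d' j k l Zi Zj Zk Zl : ℝ}
    (i1 : Zi = V a b c d 0) (j1 : Zj = V a b c d j) (k1 : Zk = V a b c d k)
    (i2 : Zi = V a b c' d' 0) (j2 : Zj = V a b c' d' j) (l2 : Zl = V a b c' d' l)
    {m n α β : ℝ} (hm : 0 < m) (hn : 0 < n) (hα : 0 < α) (hβ : 0 < β)
    (hmn : m + n = α + β) (hcross : m * k + n * l = β * j)
    (hk : j = 0 → k ≠ 0)
    (htight : j = 0 → Zk - Zi = tg a b k ∨ Zl - Zi = tg a b l) :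
    ∃ C E : ℝ, Zi = V a b C E 0 ∧ Zj = V a b C E j ∧ Zk = V a b C E k ∧ Zl = V a b C E l := by
  rcases lt_trichotomy j 0 with hj | hj | hj
  · obtain ⟨C, E, h1, h2, h3, h4⟩ := jointV_pos (a := b) (b := a) (c := d) (d := c) (c' := d')
      (d' := c') (j := -j) (k := -k) (l := -l) (Zi := Zi) (Zj := Zj) (Zk := Zk) (Zl := Zl) hb ha
      (by rw [i1, V_refl, neg_zero]) (by rw [j1, V_refl]) (by rw [k1, V_refl])
      (by rw [i2, V_refl, neg_zero]) (by rw [j2, V_refl]) (by rw [l2, V_refl])
      hm hn hα hβ hmn (by linarith) (by linarith)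
    exact ⟨E, C, by rw [h1, V_refl, neg_zero], by rw [h2, V_refl, neg_neg],
      by rw [h3, V_refl, neg_neg], by rw [h4, V_refl, neg_neg]⟩
  · subst hj
    have hk' := hk rfl
    have ht' := htight rfl
    have hij : Zj = Zi := by rw [i1, j1]
    rcases lt_or_gt_of_ne hk' with k0 | k0
    · have hl : 0 < l := by
        by_contra hcon
        push Not at hcon
        nlinarith [mul_pos hm (neg_pos.2 k0), mul_nonneg hn.le (neg_nonneg.2 hcon)]
      rw [tg_neg ha hb k0.le, tg_pos ha hb hl.le] at ht'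
      obtain ⟨C, E, h1, h2, h3⟩ := jointV_flat ha hb i2 l2 i1 k1 hl k0 ht'.symm
      exact ⟨C, E, h1, hij ▸ h1, h3, h2⟩
    · have hl : l < 0 := by
        by_contra hcon
        push Not at hcon
        nlinarith [mul_pos hm k0, mul_nonneg hn.le hcon]
      rw [tg_pos ha hb k0.le, tg_neg ha hb hl.le] at ht'
      obtain ⟨C, E, h1, h2, h3⟩ := jointV_flat ha hb i1 k1 i2 l2 k0 hl ht'
      exact ⟨C, E, h1, hij ▸ h1, h2, h3⟩
  · exact jointV_pos ha hb i1 j1 k1 i2 j2 l2 hm hn hα hβ hmn hcross hj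

/-- Tightness passes from one apex to another on the same side. -/
lemma tight_same {a b : ℝ} (ha : 0 < a) (hb : 0 < b) {C E p w w' : ℝ} (hs : 0 < (w - p) * (w' - p))
    (ht : V a b C E w - V a b C E p = tg a b (w - p)) :
    V a b C E w' - V a b C E p = tg a b (w' - p) := by
  rcases lt_trichotomy (w - p) 0 with h | h | h
  · have h' : w' - p < 0 := (neg_iff_neg_of_mul_pos hs).1 h
    rw [tg_neg ha hb h.le] at ht
    rw [tg_neg ha hb h'.le]
    have p1 := mul_neg_of_pos_of_neg ha h
    have p2 := mul_neg_of_pos_of_neg hb h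
    have p3 := mul_neg_of_pos_of_neg ha h'
    have p4 := mul_neg_of_pos_of_neg hb h'
    unfold V at *
    obtain ⟨a1, a2, a3⟩ := max_cases_of_eq (rfl : max (a * w + C) (E - b * w) = _)
    obtain ⟨b1, b2, b3⟩ := max_cases_of_eq (rfl : max (a * p + C) (E - b * p) = _)
    obtain ⟨c1, c2, c3⟩ := max_cases_of_eq (rfl : max (a * w' + C) (E - b * w') = _)
    rcases a3 with a3 | a3 <;> rcases b3 with b3 | b3 <;> rcases c3 with c3 | c3 <;>
      linarith
  · rw [h] at hs; simp at hs
  · have h' : 0 < w' - p := (pos_iff_pos_of_mul_pos hs).1 h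
    rw [tg_pos ha hb h.le] at ht
    rw [tg_pos ha hb h'.le]
    have p1 := mul_pos ha h
    have p2 := mul_pos hb h
    have p3 := mul_pos ha h'
    have p4 := mul_pos hb h'
    unfold V at *
    obtain ⟨a1, a2, a3⟩ := max_cases_of_eq (rfl : max (a * w + C) (E - b * w) = _)
    obtain ⟨b1, b2, b3⟩ := max_cases_of_eq (rfl : max (a * p + C) (E - b * p) = _)
    obtain ⟨c1, c2, c3⟩ := max_cases_of_eq (rfl : max (a * w' + C) (E - b * w') = _)
    rcases a3 with a3 | a3 <;> rcases b3 with b3 | b3 <;> rcases c3 with c3 | c3 <;>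
      linarith

/-- If `k` is strictly between `i` and `j` (heights), one of them is tight from `k`. -/
lemma tight_new {a b : ℝ} (ha : 0 < a) (hb : 0 < b) {C E i j k : ℝ}
    (hs : (i - k) * (j - k) < 0) :
    V a b C E i - V a b C E k = tg a b (i - k) ∨ V a b C E j - V a b C E k = tg a b (j - k) := by
  have up : ∀ x : ℝ, 0 < x - k → V a b C E k = a * k + C →
      V a b C E x - V a b C E k = tg a b (x - k) := by
    intro x hx hk
    rw [tg_pos ha hb hx.le, hk]
    have h1 := V_ge_b a b C E k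
    rw [hk] at h1
    have h2 := mul_pos ha hx
    have h3 := mul_pos hb hx
    unfold V
    rw [max_eq_left (by nlinarith)]
    ring
  have dn : ∀ x : ℝ, x - k < 0 → V a b C E k = E - b * k →
      V a b C E x - V a b C E k = tg a b (x - k) := by
    intro x hx hk
    rw [tg_neg ha hb hx.le, hk]
    have h1 := V_ge_a a b C E k
    rw [hk] at h1
    have h2 := mul_neg_of_pos_of_neg ha hx
    have h3 := mul_neg_of_pos_of_neg hb hx
    unfold V
    rw [max_eq_right (by nlinarith)]
    ring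
  have hch : V a b C E k = a * k + C ∨ V a b C E k = E - b * k := max_choice _ _
  rcases mul_neg_iff.1 hs with ⟨h1, h2⟩ | ⟨h1, h2⟩
  · rcases hch with h | h
    · exact Or.inl (up i h1 h)
    · exact Or.inr (dn j h2 h)
  · rcases hch with h | h
    · exact Or.inr (up j h2 h)
    · exact Or.inl (dn i h1 h)

end Pool.Agent.N222.Dil
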